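import Pool.Agent.H77.SF.Dat

/-! # [H77 SF Cor2] THEOREM SF, chapter [C]: the size of the auxiliary value (STEP 3) -/

namespace Pool.Agent.H77.SF

open Finset Polynomial

/-- Taylor expansion of a monomial -/
theorem tay_mono (α h : ℝ) (l b : ℕ) :
    (l.choose b : ℝ) * (α + h) ^ (l - b) =
      ∑ t ∈ range (l + 1), ((t.choose b : ℝ) * h ^ (t - b)) * ((l.choose t : ℝ) * α ^ (l - t)) := by
  have h1 : ((X + C (α + h)) ^ l : ℝ[X]) =
      ∑ t ∈ range (l + 1), (X + C h) ^ t * C (α ^ (l - t)) * C (l.choose t : ℝ) := by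
    have h2 : (X + C (α + h) : ℝ[X]) = (X + C h) + C α := by
      rw [C_add]
      ring
    rw [h2, add_pow]
    refine Finset.sum_congr rfl fun t _ => ?_
    rw [C_pow, map_natCast C]
  have h3 := congrArg (fun P : ℝ[X] => P.coeff b) h1
  simp only [coeff_X_add_C_pow, finsetSum_coeff, coeff_mul_C] at h3
  rw [mul_comm, h3]
  refine Finset.sum_congr rfl fun t _ => ?_
  ring

/-- Taylor expansion at `α` of the `b`-th Taylor coefficient at `c` -/
theorem tay_sum (α c : ℝ) (g : ℕ → ℝ) (d b : ℕ) :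
    ∑ l ∈ range (d + 1), g l * ((l.choose b : ℝ) * c ^ (l - b)) =
      ∑ t ∈ range (d + 1), ((t.choose b : ℝ) * (c - α) ^ (t - b)) *
        ∑ l ∈ range (d + 1), g l * ((l.choose t : ℝ) * α ^ (l - t)) := by
  have h1 : ∀ l ∈ range (d + 1), g l * ((l.choose b : ℝ) * c ^ (l - b)) =
      ∑ t ∈ range (d + 1), g l * (((t.choose b : ℝ) * (c - α) ^ (t - b)) *
        ((l.choose t : ℝ) * α ^ (l - t))) := by
    intro l hl
    have h2 := tay_mono α (c - α) l b
    rw [add_sub_cancel] at h2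
    rw [h2, Finset.mul_sum]
    refine Finset.sum_subset (fun t ht => ?_) fun t _ ht => ?_
    · rw [Finset.mem_range] at ht hl ⊢
      omega
    · rw [Finset.mem_range] at ht
      rw [Nat.choose_eq_zero_of_lt (show l < t by omega)]
      simp
  rw [Finset.sum_congr rfl h1, Finset.sum_comm]
  refine Finset.sum_congr rfl fun t _ => ?_
  rw [Finset.mul_sum]
  refine Finset.sum_congr rfl fun l _ => ?_
  ring

/-- the size of a Taylor coefficient at `c` of a polynomial vanishing to order `v` at `α` -/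
theorem tay_bound {α c B Γ : ℝ} (hB : 1 ≤ B) (hα : |α| ≤ B) (hδ : |c - α| ≤ 1) (g : ℕ → ℝ)
    (hg : ∀ l, |g l| ≤ Γ) (d b v : ℕ)
    (hv : ∀ t < v, ∑ l ∈ range (d + 1), g l * ((l.choose t : ℝ) * α ^ (l - t)) = 0) :
    |∑ l ∈ range (d + 1), g l * ((l.choose b : ℝ) * c ^ (l - b))| ≤
      ((d : ℝ) + 1) ^ 2 * (4 * B) ^ d * Γ * |c - α| ^ (v - b) := by
  have hΓ : 0 ≤ Γ := (abs_nonneg _).trans (hg 0)
  have hch : ∀ l ≤ d, ∀ t, (l.choose t : ℝ) ≤ 2 ^ d := by
    intro l hl t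
    have h3 : l.choose t ≤ 2 ^ d :=
      (Nat.choose_le_two_pow _ _).trans (Nat.pow_le_pow_right (by norm_num) hl)
    exact_mod_cast h3
  rw [tay_sum α c g d b]
  refine (Finset.abs_sum_le_sum_abs _ _).trans ?_
  have h1 : ∀ t ∈ range (d + 1), |((t.choose b : ℝ) * (c - α) ^ (t - b)) *
      ∑ l ∈ range (d + 1), g l * ((l.choose t : ℝ) * α ^ (l - t))| ≤
      ((d : ℝ) + 1) * (4 * B) ^ d * Γ * |c - α| ^ (v - b) := by
    intro t ht
    rw [Finset.mem_range] at ht
    rcases Nat.lt_or_ge t v with htv | htv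
    · rw [hv t htv, mul_zero, abs_zero]
      positivity
    · have h2 : |∑ l ∈ range (d + 1), g l * ((l.choose t : ℝ) * α ^ (l - t))| ≤
          ((d : ℝ) + 1) * (Γ * (2 ^ d * B ^ d)) := by
        refine (Finset.abs_sum_le_sum_abs _ _).trans ?_
        refine (Finset.sum_le_card_nsmul _ _ (Γ * (2 ^ d * B ^ d)) fun l hl => ?_).trans ?_
        · rw [Finset.mem_range] at hl
          rw [abs_mul, abs_mul, abs_pow, Nat.abs_cast]
          refine mul_le_mul (hg l) ?_ (by positivity) hΓ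
          refine mul_le_mul (hch l (by omega) t) ?_ (by positivity) (by positivity)
          exact (pow_le_pow_left₀ (abs_nonneg _) hα _).trans
            (pow_le_pow_right₀ hB (by omega))
        · rw [Finset.card_range, nsmul_eq_mul]
          push_cast
          exact le_rfl
      rw [abs_mul, abs_mul, abs_pow, Nat.abs_cast]
      calc (t.choose b : ℝ) * |c - α| ^ (t - b) *
            |∑ l ∈ range (d + 1), g l * ((l.choose t : ℝ) * α ^ (l - t))|
          ≤ (2 ^ d * |c - α| ^ (v - b)) * (((d : ℝ) + 1) * (Γ * (2 ^ d * B ^ d))) := by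
            refine mul_le_mul (mul_le_mul (hch t (by omega) b) ?_ (by positivity) (by positivity))
              h2 (abs_nonneg _) (by positivity)
            exact pow_le_pow_of_le_one (abs_nonneg _) hδ (Nat.sub_le_sub_right htv _)
        _ = ((d : ℝ) + 1) * (4 * B) ^ d * Γ * |c - α| ^ (v - b) := by
            rw [show (4 : ℝ) * B = 2 * 2 * B by norm_num, mul_pow, mul_pow]
            ring
  refine (Finset.sum_le_card_nsmul _ _ _ h1).trans ?_
  rw [Finset.card_range, nsmul_eq_mul]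
  push_cast
  refine le_of_eq ?_
  ring

/-- `|α| ≤ B` -/
theorem alpha_le {r s m W : ℕ} {A B : ℝ} {p : ℤ[X]} {α : ℝ} {cu cw : ℤ} {π : ℝ} {z : Fin s → ℝ}
    {b : Fin m → Fin s → ℕ → ℤ[X]} {e : ℤ} {Yv : Fin m → ℤ}
    (h : Dat r s m W A B p α cu cw π z b e Yv) : |α| ≤ B := by
  have h1 : (α : ℂ) ∈ (p.map (Int.castRingHom ℂ)).roots := by
    have hpc : p.map (Int.castRingHom ℂ) ≠ 0 :=
      (Polynomial.map_ne_zero_iff (RingHom.injective_int _)).2 h.mon.ne_zero
    rw [mem_roots hpc, IsRoot.def, eval_map]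
    have h2 : aeval ((algebraMap ℝ ℂ) α) p = 0 := by
      rw [Polynomial.aeval_algebraMap_apply, h.root, map_zero]
    rw [aeval_def] at h2
    exact h2
  obtain ⟨R, hR⟩ := Multiset.exists_cons_of_mem h1
  have h3 : ∀ R : Multiset ℂ, 1 ≤ (R.map fun β : ℂ => max 1 ‖β‖).prod := by
    intro R
    induction R using Multiset.induction_on with
    | empty => simp
    | cons a R ih =>
      rw [Multiset.map_cons, Multiset.prod_cons]
      exact one_le_mul_of_one_le_of_one_le (le_max_left _ _) ih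
  have h4 := h.mah
  rw [hR, Multiset.map_cons, Multiset.prod_cons] at h4
  calc |α| = ‖(α : ℂ)‖ := by rw [Complex.norm_real, Real.norm_eq_abs]
    _ ≤ max 1 ‖(α : ℂ)‖ := le_max_right _ _
    _ ≤ max 1 ‖(α : ℂ)‖ * (R.map fun β : ℂ => max 1 ‖β‖).prod :=
        le_mul_of_one_le_right (by positivity) (h3 R)
    _ ≤ B := h4

/-- **STEP 3.** -/
theorem size {r s m W : ℕ} {A B : ℝ} {p : ℤ[X]} {α : ℝ} {cu cw : ℤ} {π : ℝ} {z : Fin s → ℝ}
    {b : Fin m → Fin s → ℕ → ℤ[X]} {e : ℤ} {Yv : Fin m → ℤ}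
    (h : Dat r s m W A B p α cu cw π z b e Yv) (hδ : |(cu : ℝ) / cw - α| ≤ 1) {Y d b0 : ℕ}
    {v : ℕ → ℕ} {y : Fin m → ℕ → ℤ} (hy : ∀ k l, |y k l| ≤ Y)
    (hv : ∀ i, ∀ u < 4 * W, ∀ t < v u, ∑ k, ∑ l ∈ range (d + 1),
      (y k l : ℝ) * ((l.choose t : ℝ) * α ^ (l - t)) * aeval α (b k i u) = 0)
    (hne : ∑ k, ∑ l ∈ range (d + 1),
      y k l * ((l.choose b0 : ℤ) * (cu ^ (l - b0) * cw ^ (d - (l - b0)))) * Yv k ≠ 0) :
    |π| ^ (2 * W) ≤ A ^ 3 * m * ((d : ℝ) + 1) ^ 2 * (4 * B ^ 2) ^ d * Y *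
      (|π| ^ (4 * W) + ∑ _i : Fin s, ∑ u ∈ range (4 * W),
        |π| ^ u * |(cu : ℝ) / cw - α| ^ (v u - b0)) := by
  have hB1 := h.B1
  have hA1 : 1 ≤ A := by linarith [h.A2]
  have hcw : (0 : ℝ) < cw := by
    have := h.cw1
    exact_mod_cast (show 0 < cw by omega)
  have hcw1 : (1 : ℝ) ≤ cw := by exact_mod_cast h.cw1
  have he : (0 : ℝ) < e := by
    have := h.e1
    exact_mod_cast (show 0 < e by omega)
  set c : ℝ := (cu : ℝ) / cw with hc
  have hcB : |c| ≤ B := by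
    rw [hc, abs_div, abs_of_pos hcw, div_le_iff₀ hcw]
    nlinarith [h.cuB]
  have hYr : ∀ k l, |(y k l : ℝ)| ≤ Y := fun k l => by
    have := hy k l
    exact_mod_cast this
  have hY0 : (0 : ℝ) ≤ Y := by positivity
  set Sk : Fin m → ℝ := fun k => ∑ l ∈ range (d + 1), (y k l : ℝ) * ((l.choose b0 : ℝ) *
    c ^ (l - b0)) with hSk
  -- size of Sk
  have hSkb : ∀ k, |Sk k| ≤ ((d : ℝ) + 1) ^ 2 * (4 * B) ^ d * Y := by
    intro k
    refine (Finset.abs_sum_le_sum_abs _ _).trans ?_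
    refine (Finset.sum_le_card_nsmul _ _ (Y * (2 ^ d * B ^ d)) fun l hl => ?_).trans ?_
    · rw [Finset.mem_range] at hl
      rw [abs_mul, abs_mul, abs_pow, Nat.abs_cast]
      refine mul_le_mul (hYr k l) ?_ (by positivity) hY0
      refine mul_le_mul ?_ ?_ (by positivity) (by positivity)
      · have h3 : l.choose b0 ≤ 2 ^ d :=
          (Nat.choose_le_two_pow _ _).trans (Nat.pow_le_pow_right (by norm_num) (by omega))
        exact_mod_cast h3
      · exact (pow_le_pow_left₀ (abs_nonneg _) hcB _).trans (pow_le_pow_right₀ hB1 (by omega))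
    · rw [Finset.card_range, nsmul_eq_mul]
      push_cast
      have h5 : (2 : ℝ) ^ d * B ^ d ≤ (4 * B) ^ d := by
        rw [mul_pow]
        exact mul_le_mul_of_nonneg_right (pow_le_pow_left₀ (by norm_num) (by norm_num) _)
          (by positivity)
      have h6 : ((d : ℝ) + 1) ≤ ((d : ℝ) + 1) ^ 2 := by
        have : (0 : ℝ) ≤ d := by positivity
        nlinarith
      calc ((d : ℝ) + 1) * (Y * (2 ^ d * B ^ d)) ≤ ((d : ℝ) + 1) ^ 2 * (Y * (4 * B) ^ d) :=
            mul_le_mul h6 (mul_le_mul_of_nonneg_left h5 hY0) (by positivity) (by positivity)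
        _ = _ := by ring
  -- size of the G
  set Gu : Fin s → ℕ → ℝ := fun i u => ∑ k, aeval α (b k i u) * Sk k with hGu
  have haα : ∀ k i u, u < 4 * W → |aeval α (b k i u)| ≤ A := by
    intro k i u hu
    have h1 : aeval ((algebraMap ℝ ℂ) α) p = 0 := by
      rw [Polynomial.aeval_algebraMap_apply, h.root, map_zero]
    have h2 := h.bA k i u hu _ h1
    rw [Polynomial.aeval_algebraMap_apply] at h2
    have h3 : ‖(algebraMap ℝ ℂ) (aeval α (b k i u))‖ = |aeval α (b k i u)| := by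
      rw [Complex.coe_algebraMap, Complex.norm_real, Real.norm_eq_abs]
    rwa [h3] at h2
  have hGb : ∀ i, ∀ u < 4 * W, |Gu i u| ≤
      ((d : ℝ) + 1) ^ 2 * (4 * B) ^ d * (m * (Y * A)) * |c - α| ^ (v u - b0) := by
    intro i u hu
    have h1 : Gu i u = ∑ l ∈ range (d + 1), (∑ k, (y k l : ℝ) * aeval α (b k i u)) *
        ((l.choose b0 : ℝ) * c ^ (l - b0)) := by
      simp only [hGu, hSk, Finset.mul_sum, Finset.sum_mul]
      rw [Finset.sum_comm]
      refine Finset.sum_congr rfl fun l _ => Finset.sum_congr rfl fun k _ => ?_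
      ring
    rw [h1]
    refine tay_bound hB1 (alpha_le h) hδ _ (fun l => ?_) d b0 (v u) fun t ht => ?_
    · refine (Finset.abs_sum_le_sum_abs _ _).trans ?_
      refine (Finset.sum_le_card_nsmul _ _ (Y * A) fun k _ => ?_).trans ?_
      · rw [abs_mul]
        exact mul_le_mul (hYr k l) (haα k i u hu) (abs_nonneg _) hY0
      · rw [Finset.card_univ, Fintype.card_fin, nsmul_eq_mul]
    · rw [← hv i u hu t ht, Finset.sum_comm]
      refine Finset.sum_congr rfl fun l _ => ?_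
      rw [Finset.sum_mul]
      refine Finset.sum_congr rfl fun k _ => ?_
      ring
  -- the integer
  set Z : ℤ := ∑ k, ∑ l ∈ range (d + 1),
    y k l * ((l.choose b0 : ℤ) * (cu ^ (l - b0) * cw ^ (d - (l - b0)))) * Yv k with hZ
  set Wv : ℝ := ∑ k, Sk k * ((Yv k : ℝ) / e) with hW
  have hZW : (Z : ℝ) = e * (cw : ℝ) ^ d * Wv := by
    rw [hZ, hW]
    push_cast
    rw [Finset.mul_sum]
    refine Finset.sum_congr rfl fun k _ => ?_
    have h1 : (e : ℝ) * (cw : ℝ) ^ d * (Sk k * ((Yv k : ℝ) / e)) =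
        ((cw : ℝ) ^ d * Sk k) * Yv k := by
      field_simp
    rw [h1, hSk, Finset.mul_sum, Finset.sum_mul]
    refine Finset.sum_congr rfl fun l hl => ?_
    rw [Finset.mem_range] at hl
    have h2 : (cw : ℝ) ^ d * c ^ (l - b0) = (cu : ℝ) ^ (l - b0) * (cw : ℝ) ^ (d - (l - b0)) := by
      have h3 : d = (d - (l - b0)) + (l - b0) := by omega
      have h4 : (cw : ℝ) ^ d = (cw : ℝ) ^ (d - (l - b0)) * (cw : ℝ) ^ (l - b0) := by
        rw [← pow_add, ← h3]
      rw [h4, hc, div_pow]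
      field_simp
    calc (y k l : ℝ) * ((l.choose b0 : ℝ) * ((cu : ℝ) ^ (l - b0) * (cw : ℝ) ^ (d - (l - b0)))) *
          (Yv k : ℝ) = (y k l : ℝ) * ((l.choose b0 : ℝ) * ((cw : ℝ) ^ d * c ^ (l - b0))) *
            (Yv k : ℝ) := by rw [h2]
      _ = _ := by ring
  have hZ1 : (1 : ℝ) ≤ |(Z : ℝ)| := by
    have := Int.one_le_abs hne
    exact_mod_cast this
  -- the estimate of pi^(2W) Wv
  have hWb : |π ^ (2 * W) * Wv| ≤ ((d : ℝ) + 1) ^ 2 * (4 * B) ^ d * (m * Y) * A ^ 2 *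
      (|π| ^ (4 * W) + ∑ _i : Fin s, ∑ u ∈ range (4 * W), |π| ^ u * |c - α| ^ (v u - b0)) := by
    have h1 : π ^ (2 * W) * Wv = ∑ k, Sk k * (π ^ (2 * W) * ((Yv k : ℝ) / e) -
        ∑ i, ∑ u ∈ range (4 * W), aeval α (b k i u) * z i * π ^ u) +
        ∑ i, ∑ u ∈ range (4 * W), z i * π ^ u * Gu i u := by
      have h2 : ∑ i, ∑ u ∈ range (4 * W), z i * π ^ u * Gu i u =
          ∑ k, Sk k * ∑ i, ∑ u ∈ range (4 * W), aeval α (b k i u) * z i * π ^ u := by
        simp only [hGu, Finset.mul_sum]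
        symm
        rw [Finset.sum_comm]
        refine Finset.sum_congr rfl fun i _ => ?_
        rw [Finset.sum_comm]
        refine Finset.sum_congr rfl fun u _ => Finset.sum_congr rfl fun k _ => ?_
        ring
      rw [h2, ← Finset.sum_add_distrib, hW, Finset.mul_sum]
      refine Finset.sum_congr rfl fun k _ => ?_
      ring
    have hpos : (0 : ℝ) ≤ ((d : ℝ) + 1) ^ 2 * (4 * B) ^ d := by positivity
    have h3 : |∑ k, Sk k * (π ^ (2 * W) * ((Yv k : ℝ) / e) -
        ∑ i, ∑ u ∈ range (4 * W), aeval α (b k i u) * z i * π ^ u)| ≤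
        ((d : ℝ) + 1) ^ 2 * (4 * B) ^ d * (m * Y) * A ^ 2 * |π| ^ (4 * W) := by
      refine (Finset.abs_sum_le_sum_abs _ _).trans ?_
      refine (Finset.sum_le_card_nsmul _ _
        ((((d : ℝ) + 1) ^ 2 * (4 * B) ^ d * Y) * (A * |π| ^ (4 * W))) fun k _ => ?_).trans ?_
      · rw [abs_mul]
        exact mul_le_mul (hSkb k) (h.app k) (abs_nonneg _) (by positivity)
      · rw [Finset.card_univ, Fintype.card_fin, nsmul_eq_mul]
        have h4 : A ≤ A ^ 2 := by nlinarith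
        calc (m : ℝ) * ((((d : ℝ) + 1) ^ 2 * (4 * B) ^ d * Y) * (A * |π| ^ (4 * W)))
            = (((d : ℝ) + 1) ^ 2 * (4 * B) ^ d * (m * Y) * |π| ^ (4 * W)) * A := by ring
          _ ≤ (((d : ℝ) + 1) ^ 2 * (4 * B) ^ d * (m * Y) * |π| ^ (4 * W)) * A ^ 2 :=
              mul_le_mul_of_nonneg_left h4 (by positivity)
          _ = _ := by ring
    have h5 : |∑ i, ∑ u ∈ range (4 * W), z i * π ^ u * Gu i u| ≤
        ((d : ℝ) + 1) ^ 2 * (4 * B) ^ d * (m * Y) * A ^ 2 *
          ∑ _i : Fin s, ∑ u ∈ range (4 * W), |π| ^ u * |c - α| ^ (v u - b0) := by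
      refine (Finset.abs_sum_le_sum_abs _ _).trans ?_
      rw [Finset.mul_sum]
      refine Finset.sum_le_sum fun i _ => ?_
      refine (Finset.abs_sum_le_sum_abs _ _).trans ?_
      rw [Finset.mul_sum]
      refine Finset.sum_le_sum fun u hu => ?_
      rw [Finset.mem_range] at hu
      rw [abs_mul, abs_mul, abs_pow]
      calc |z i| * |π| ^ u * |Gu i u| ≤ A * |π| ^ u *
            (((d : ℝ) + 1) ^ 2 * (4 * B) ^ d * (m * (Y * A)) * |c - α| ^ (v u - b0)) :=
            mul_le_mul (mul_le_mul_of_nonneg_right (h.zA i) (by positivity)) (hGb i u hu)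
              (abs_nonneg _) (by positivity)
        _ = _ := by ring
    rw [h1]
    refine (abs_add_le _ _).trans ?_
    refine (add_le_add h3 h5).trans (le_of_eq ?_)
    ring
  calc |π| ^ (2 * W) ≤ |π| ^ (2 * W) * |(Z : ℝ)| := le_mul_of_one_le_right (by positivity) hZ1
    _ = e * (cw : ℝ) ^ d * |π ^ (2 * W) * Wv| := by
        rw [hZW, abs_mul, abs_mul, abs_mul, abs_pow, abs_pow, abs_of_pos he, abs_of_pos hcw]
        ring
    _ ≤ A * B ^ d * (((d : ℝ) + 1) ^ 2 * (4 * B) ^ d * (m * Y) * A ^ 2 *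
          (|π| ^ (4 * W) + ∑ _i : Fin s, ∑ u ∈ range (4 * W),
            |π| ^ u * |c - α| ^ (v u - b0))) := by
        refine mul_le_mul ?_ hWb (abs_nonneg _) (by positivity)
        exact mul_le_mul h.eA (pow_le_pow_left₀ hcw.le h.cwB _) (by positivity) (by linarith)
    _ = _ := by
        rw [show (4 : ℝ) * B ^ 2 = 4 * B * B by ring, mul_pow (4 * B)]
        ring

end Pool.Agent.H77.SF
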