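import Pool.Agent.H77.SF.Pf
import Pool.Agent.H8.EF.Wron

/-! # [H77 SF Ind] INDEPENDENCE (THEOREM SF, think 1396, STEP 1, with levels)

`V` a finite dimensional space over a field `F` of characteristic zero, `α j` (`j : J`) distinct
points, `c` another one, `lam j i u : V → F` (`u < M`) functionals such that for every level `u < M`
there is a partition of `J` into `κ u` parts (`s u : J → ℕ`) such that the joint map of all
`lam j i u'`, `u' ≤ u`, over one part is surjective, `w : V → F` not zero, `v` antitone, `v M = 0`.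
If `∑_(u<M) (v u - v (u+1)) κ u + B + (#J + 1) dim V ≤ d + 1`, then the functionals
`S ↦` coefficient of `(X - α j)^k` in `lam j i u (S)` (`k < v u`, `u < M`) and
`S ↦` coefficient of `(X - c)^b` in `w (S)` (`b < B`) on `V[X]_{≤ d}` are linearly independent.

Proof. A relation gives polynomials `P φ = ∏ (X - α j)^(v 0) (X - c)^B T_φ` of degree
`≤ #J v 0 + B - d - 2` (`coeff_eq`), linear in `φ`; if `P ≠ 0` the Wronskian of a basis of the range
of `P` is not zero, has small degree and vanishes to high order at all `α j` and at `c`: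
contradiction. So `P = 0`, and `pf_indep` gives the claim. -/

namespace Pool.Agent.H77.SF

open Finset Polynomial Module

/-- a basis adapted to a decreasing chain of subspaces -/
theorem adapted {K : Type*} [Field K] (M : ℕ) : ∀ {U : Type*} [AddCommGroup U] [Module K U]
    [FiniteDimensional K U] (G : ℕ → Submodule K U) (_ : Antitone G),
    ∃ b : Fin (finrank K U) → U, LinearIndependent K b ∧
      ∀ u < M, finrank K (G u) ≤ by classical exact (univ.filter fun s => b s ∈ G u).card := by
  classical
  induction M with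
  | zero =>
    intro U _ _ _ G _
    exact ⟨finBasis K U, (finBasis K U).linearIndependent, fun u hu => absurd hu (by omega)⟩
  | succ M ih =>
    intro U _ _ _ G hG
    obtain ⟨b', hb', hc'⟩ := ih (U := G 0) (fun u => (G (u + 1)).comap (G 0).subtype)
      (fun u u' h => Submodule.comap_mono (hG (Nat.succ_le_succ h)))
    set f : Fin (finrank K (G 0)) → U := fun s => (b' s : U) with hf
    have hfi : LinearIndependent K f := hb'.map' (G 0).subtype (Submodule.ker_subtype _)
    set B := Module.Basis.sumExtend hfi with hB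
    have hfin : Finite (Fin (finrank K (G 0)) ⊕ Module.Basis.sumExtendIndex hfi) :=
      Module.Finite.finite_basis B
    have : Finite (Module.Basis.sumExtendIndex hfi) := Finite.sum_right (Fin (finrank K (G 0)))
    have : Fintype (Module.Basis.sumExtendIndex hfi) := Fintype.ofFinite _
    set e : (Fin (finrank K (G 0)) ⊕ Module.Basis.sumExtendIndex hfi) ≃ Fin (finrank K U) :=
      Fintype.equivFinOfCardEq (Module.finrank_eq_card_basis B).symm with he
    have hinl : ∀ s, B (e.symm (e (Sum.inl s))) = (b' s : U) := by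
      intro s
      rw [Equiv.symm_apply_apply, hB, Pool.Agent.H8.EF.sumExtend_inl]
    have hinj : Function.Injective (fun s : Fin (finrank K (G 0)) => e (Sum.inl s)) :=
      fun s s' h => Sum.inl_injective (e.injective h)
    refine ⟨fun y => B (e.symm y), B.linearIndependent.comp _ e.symm.injective, ?_⟩
    intro u hu
    rcases u with _ | u
    · calc finrank K (G 0) = (univ.image fun s : Fin (finrank K (G 0)) => e (Sum.inl s)).card := by
            rw [Finset.card_image_of_injective _ hinj, Finset.card_univ, Fintype.card_fin]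
        _ ≤ _ := by
          refine Finset.card_le_card fun y hy => ?_
          obtain ⟨s, _, rfl⟩ := Finset.mem_image.1 hy
          refine Finset.mem_filter.2 ⟨mem_univ _, ?_⟩
          show B (e.symm (e (Sum.inl s))) ∈ G 0
          rw [hinl]
          exact (b' s).2
    · have h1 := hc' u (by omega)
      have h2 : finrank K ((G (u + 1)).comap (G 0).subtype) = finrank K (G (u + 1)) :=
        (Submodule.comapSubtypeEquivOfLe (hG (Nat.zero_le _))).finrank_eq
      rw [← h2]
      refine h1.trans ?_
      calc (univ.filter fun s => b' s ∈ (G (u + 1)).comap (G 0).subtype).card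
          = ((univ.filter fun s => b' s ∈ (G (u + 1)).comap (G 0).subtype).image
            fun s : Fin (finrank K (G 0)) => e (Sum.inl s)).card := by
            rw [Finset.card_image_of_injective _ hinj]
        _ ≤ _ := by
          refine Finset.card_le_card fun y hy => ?_
          obtain ⟨s, hs, rfl⟩ := Finset.mem_image.1 hy
          refine Finset.mem_filter.2 ⟨mem_univ _, ?_⟩
          show B (e.symm (e (Sum.inl s))) ∈ G (u + 1)
          rw [hinl]
          exact (Finset.mem_filter.1 hs).2

/-- the dimension count from the surjectivity over one half -/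
theorem dim_count {K U J : Type*} [Field K] [AddCommGroup U] [Module K U] [FiniteDimensional K U]
    [Fintype J] (p : J → Prop) [DecidablePred p] (G : J → Submodule K U)
    (h : ∀ x : J → U, ∃ y : U, ∀ j, p j → y - x j ∈ G j) :
    (univ.filter p).card * finrank K U ≤ finrank K U + ∑ j ∈ univ.filter p, finrank K (G j) := by
  classical
  set L : U →ₗ[K] ((j : {j // p j}) → U ⧸ G j) := LinearMap.pi fun j => (G j).mkQ with hL
  have hs : Function.Surjective L := by
    intro z
    choose x hx using fun j : {j // p j} => (G j).mkQ_surjective (z j)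
    obtain ⟨y, hy⟩ := h fun j => if hj : p j then x ⟨j, hj⟩ else 0
    refine ⟨y, ?_⟩
    funext j
    rw [← hx j]
    have h1 := hy j j.2
    rw [dif_pos j.2] at h1
    simp only [hL, LinearMap.pi_apply, Submodule.mkQ_apply]
    exact (Submodule.Quotient.eq _).2 h1
  have h1 : finrank K ((j : {j // p j}) → U ⧸ G j) ≤ finrank K U :=
    LinearMap.finrank_le_finrank_of_surjective hs
  rw [Module.finrank_pi_fintype] at h1
  have h2 : ∑ j : {j // p j}, finrank K (U ⧸ G j) + ∑ j : {j // p j}, finrank K (G j) =
      (univ.filter p).card * finrank K U := by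
    rw [← Finset.sum_add_distrib]
    rw [Finset.sum_congr rfl fun (j : {j // p j}) _ =>
      Submodule.finrank_quotient_add_finrank (G j.1)]
    rw [Finset.sum_const, Finset.card_univ, smul_eq_mul, Fintype.card_subtype]
  have h3 : ∑ j : {j // p j}, finrank K (G j) = ∑ j ∈ univ.filter p, finrank K (G j) :=
    (Finset.sum_subtype (univ.filter p) (by simp) (fun j => finrank K (G j))).symm
  omega

theorem tele (v : ℕ → ℕ) (hv : Antitone v) (n : ℕ) :
    ∑ u ∈ range n, (v u - v (u + 1)) = v 0 - v n := by
  induction n with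
  | zero => simp
  | succ n ih =>
    rw [Finset.sum_range_succ, ih]
    have h1 := hv (Nat.zero_le n)
    have h2 := hv (Nat.le_succ n)
    simp only [Nat.succ_eq_add_one] at h2
    omega

/-- the order of the Wronskian at one point, from a chain of subspaces -/
theorem ord_chain {F : Type*} [Field F] (α : F) (U : Submodule F F[X])
    [FiniteDimensional F U] (M : ℕ) (v : ℕ → ℕ) (hv : Antitone v)
    (G : ℕ → Submodule F U) (hG : Antitone G)
    (hGd : ∀ u < M, ∀ q ∈ G u, (X - C α) ^ (v 0 - v (u + 1)) ∣ (q : F[X])) :
    ∃ k : ℕ, (X - C α) ^ k ∣ Pool.Agent.H8.EF.wron (fun b => (finBasis F U b : F[X])) ∧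
      ∑ u ∈ range M, (v u - v (u + 1)) * finrank F (G u) ≤
        k + finrank F U * (finrank F U - 1) := by
  classical
  obtain ⟨b, hb, hcnt⟩ := adapted M G hG
  set bs := finBasis F U with hbs
  set I : Fin (finrank F U) → ℕ := fun s =>
    ∑ u ∈ range M, if b s ∈ G u then v u - v (u + 1) else 0 with hI
  have hexp : ∀ q : U, (q : F[X]) = ∑ y, C (bs.repr q y) * (bs y : F[X]) := by
    intro q
    have h1 := congrArg (fun z : U => (z : F[X])) (bs.sum_repr q)
    rw [← h1]
    simp only [Submodule.coe_sum, Submodule.coe_smul, Polynomial.smul_eq_C_mul]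
  have hdvd : ∀ s, (X - C α) ^ (I s) ∣ (b s : F[X]) := by
    intro s
    have key : ∀ m ≤ M, (∑ u ∈ range m, if b s ∈ G u then v u - v (u + 1) else 0) = 0 ∨
        ∃ u < m, b s ∈ G u ∧
          (∑ u ∈ range m, if b s ∈ G u then v u - v (u + 1) else 0) ≤ v 0 - v (u + 1) := by
      intro m
      induction m with
      | zero => intro _; left; simp
      | succ m ih =>
        intro hm
        by_cases hbm : b s ∈ G m
        · right
          refine ⟨m, Nat.lt_succ_self m, hbm, ?_⟩
          rw [← tele v hv (m + 1)]
          refine Finset.sum_le_sum fun u _ => ?_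
          split_ifs
          · exact le_rfl
          · exact Nat.zero_le _
        · rw [Finset.sum_range_succ, if_neg hbm, add_zero]
          rcases ih (by omega) with h | ⟨u, hu, h1, h2⟩
          · left; exact h
          · right; exact ⟨u, by omega, h1, h2⟩
    rcases key M le_rfl with h | ⟨u, hu, h1, h2⟩
    · simp only [hI]
      rw [h, pow_zero]
      exact one_dvd _
    · exact dvd_trans (pow_dvd_pow _ h2) (hGd u hu _ h1)
  refine ⟨∑ s, (I s - (finrank F U - 1)), ?_, ?_⟩
  · refine Pool.Agent.H8.EF.wron_dvd α (fun b => (bs b : F[X]))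
      (fun s y => bs.repr (b s) y) ?_ I ?_
    · exact hb.map' bs.equivFun.toLinearMap (LinearEquiv.ker _)
    · intro s
      rw [← hexp]
      exact hdvd s
  · calc ∑ u ∈ range M, (v u - v (u + 1)) * finrank F (G u)
        ≤ ∑ u ∈ range M, (v u - v (u + 1)) * (univ.filter fun s => b s ∈ G u).card :=
          Finset.sum_le_sum fun u hu => Nat.mul_le_mul_left _ (hcnt u (mem_range.1 hu))
      _ = ∑ s, I s := by
          simp only [hI]
          rw [Finset.sum_comm]
          refine Finset.sum_congr rfl fun u _ => ?_
          rw [← Finset.sum_filter, Finset.sum_const, smul_eq_mul, mul_comm]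
      _ ≤ ∑ s, ((I s - (finrank F U - 1)) + (finrank F U - 1)) :=
          Finset.sum_le_sum fun s _ => by omega
      _ = _ := by
          rw [Finset.sum_add_distrib, Finset.sum_const, Finset.card_univ, Fintype.card_fin,
            smul_eq_mul]

theorem wr_main {F J : Type*} [Field F] [CharZero F] [Fintype J]
    {β : Option J → F} (hβ : Function.Injective β) (B d M : ℕ) (v : ℕ → ℕ) (hv : Antitone v)
    (hvM : v M = 0) (κ : ℕ → ℕ) (U : Submodule F F[X]) [FiniteDimensional F U] (hne : U ≠ ⊥)
    (G : J → ℕ → Submodule F U) (hG : ∀ j, Antitone (G j))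
    (hGd : ∀ j, ∀ u < M, ∀ q ∈ G j u,
      (X - C (β (some j))) ^ (v 0 - v (u + 1)) ∣ (q : F[X]))
    (H : Submodule F U) (hH : finrank F U ≤ finrank F H + 1)
    (hHd : ∀ q ∈ H, (X - C (β none)) ^ B ∣ (q : F[X]))
    (hcoef : ∀ q ∈ U, ∀ i, Fintype.card J * v 0 + B ≤ i + d + 1 → q.coeff i = 0)
    (hcount : ∀ u < M, Fintype.card J * finrank F U ≤
      κ u * finrank F U + ∑ j, finrank F (G j u)) :
    d + 2 ≤ ∑ u ∈ range M, (v u - v (u + 1)) * κ u + B +
      (Fintype.card J + 1) * (finrank F U - 1) := by
  classical
  set ρ := finrank F U with hρ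
  have hρ1 : 1 ≤ ρ := Nat.one_le_iff_ne_zero.2 fun h => hne (Submodule.finrank_eq_zero.1 h)
  set bs := finBasis F U with hbs
  set f : Fin (finrank F U) → F[X] := fun b => (bs b : F[X]) with hf
  have hfi : LinearIndependent F f :=
    bs.linearIndependent.map' U.subtype (Submodule.ker_subtype _)
  have hw : Pool.Agent.H8.EF.wron f ≠ 0 := Pool.Agent.H8.EF.wron_ne f hfi
  have hN : d + 2 ≤ Fintype.card J * v 0 + B := by
    by_contra hlt
    have h1 : f ⟨0, hρ1⟩ = 0 := by
      ext i
      rw [coeff_zero]
      exact hcoef _ (bs ⟨0, hρ1⟩).2 i (by omega)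
    exact hfi.ne_zero _ h1
  have hdeg : ∀ b, (f b).natDegree ≤ Fintype.card J * v 0 + B - (d + 2) := by
    intro b
    rw [natDegree_le_iff_coeff_eq_zero]
    intro i hi
    exact hcoef _ (bs b).2 i (by omega)
  have hW := Pool.Agent.H8.EF.wron_natDegree f _ hdeg
  choose k hk1 hk2 using fun j => ord_chain (β (some j)) U M v hv (G j) (hG j) (hGd j)
  obtain ⟨kc, hc1, hc2⟩ := ord_chain (β none) U 1 (fun u => if u = 0 then B else 0)
    (by
      intro u u' h
      show (if u' = 0 then B else 0) ≤ (if u = 0 then B else 0)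
      by_cases h1 : u = 0
      · rw [if_pos h1]
        split_ifs
        · exact le_rfl
        · exact Nat.zero_le _
      · rw [if_neg h1, if_neg (by omega)]) (fun _ => H) (fun _ _ _ => le_rfl)
    (by
      intro u _ q hq
      refine dvd_trans (pow_dvd_pow _ ?_) (hHd q hq)
      simp)
  simp only [Finset.sum_range_one, if_true, Nat.zero_add, one_ne_zero, if_false,
    Nat.sub_zero] at hc2
  -- the product
  set kk : Option J → ℕ := fun x => x.elim kc k with hkk
  have hprod : ∏ x, (X - C (β x)) ^ (kk x) ∣ Pool.Agent.H8.EF.wron f := by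
    refine Finset.prod_dvd_of_coprime ?_ ?_
    · intro x _ y _ hxy
      have h1 : β x - β y ≠ 0 := sub_ne_zero.2 fun h => hxy (hβ h)
      exact (isCoprime_X_sub_C_of_isUnit_sub (isUnit_iff_ne_zero.2 h1)).pow
    · intro x _
      rcases x with _ | j
      · exact hc1
      · exact hk1 j
  have hsum : kc + ∑ j, k j ≤ ρ * (Fintype.card J * v 0 + B - (d + 2)) := by
    have h1 := natDegree_le_of_dvd hprod hw
    have h2 : (∏ x, (X - C (β x)) ^ (kk x)).natDegree = ∑ x, kk x := by
      rw [natDegree_prod _ _ fun x _ => pow_ne_zero _ (X_sub_C_ne_zero _)]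
      refine Finset.sum_congr rfl fun x _ => ?_
      rw [natDegree_pow, natDegree_X_sub_C, mul_one]
    rw [h2, Fintype.sum_option] at h1
    exact h1.trans hW
  -- the count
  have hD : ∑ u ∈ range M, (v u - v (u + 1)) = v 0 := by
    rw [tele v hv M, hvM, Nat.sub_zero]
  have hA : v 0 * (Fintype.card J * ρ) ≤
      (∑ u ∈ range M, (v u - v (u + 1)) * κ u) * ρ +
        (∑ j, k j + Fintype.card J * (ρ * (ρ - 1))) := by
    calc v 0 * (Fintype.card J * ρ)
        = ∑ u ∈ range M, (v u - v (u + 1)) * (Fintype.card J * ρ) := by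
          rw [← Finset.sum_mul, hD]
      _ ≤ ∑ u ∈ range M, (v u - v (u + 1)) * (κ u * ρ + ∑ j, finrank F (G j u)) :=
          Finset.sum_le_sum fun u hu => Nat.mul_le_mul_left _ (hcount u (mem_range.1 hu))
      _ = (∑ u ∈ range M, (v u - v (u + 1)) * κ u) * ρ +
            ∑ j, ∑ u ∈ range M, (v u - v (u + 1)) * finrank F (G j u) := by
          simp only [mul_add]
          rw [Finset.sum_add_distrib, Finset.sum_mul, Finset.sum_comm]
          simp only [Finset.mul_sum, mul_assoc]
      _ ≤ (∑ u ∈ range M, (v u - v (u + 1)) * κ u) * ρ + ∑ j, (k j + ρ * (ρ - 1)) :=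
          Nat.add_le_add_left (Finset.sum_le_sum fun j _ => hk2 j) _
      _ = _ := by
          rw [Finset.sum_add_distrib, Finset.sum_const, Finset.card_univ, smul_eq_mul]
  obtain ⟨E, hE⟩ : ∃ E, Fintype.card J * v 0 + B = E + (d + 2) := ⟨_, (Nat.sub_add_cancel hN).symm⟩
  have hE' : Fintype.card J * v 0 + B - (d + 2) = E := by omega
  rw [hE'] at hsum
  obtain ⟨t, ht⟩ : ∃ t, ρ = t + 1 := ⟨ρ - 1, by omega⟩
  have hB : B * t ≤ kc + ρ * (ρ - 1) := by
    refine le_trans (Nat.mul_le_mul_left _ ?_) hc2
    omega
  have ht1 : ρ - 1 = t := by omega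
  rw [ht1] at hB hA ⊢
  rw [ht] at hB hA hsum
  generalize (∑ u ∈ range M, (v u - v (u + 1)) * κ u) = S2 at *
  generalize v 0 = n at *
  generalize Fintype.card J = r at *
  generalize ∑ j, k j = S at *
  have hfin : (t + 1) * (d + 2) ≤ (t + 1) * (S2 + B + (r + 1) * t) := by
    nlinarith [Nat.zero_le (t * B)]
  exact Nat.le_of_mul_le_mul_left hfin (Nat.succ_pos t)

/-- **STEP 1.** Independence of all index functionals and of the jets at `c` -/
theorem indep {F V J I : Type*} [Field F] [CharZero F] [AddCommGroup V] [Module F V]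
    [FiniteDimensional F V] [Fintype J] [Fintype I] {α : J → F} (hα : Function.Injective α)
    {c : F} (hc : ∀ j, α j ≠ c) {M : ℕ} (hM : 1 ≤ M) (lam : J → I → ℕ → (V →ₗ[F] F))
    (κ : ℕ → ℕ) (s : ℕ → J → ℕ) (hs : ∀ u < M, ∀ j, s u j < κ u)
    (hJ : ∀ u < M, ∀ b, Function.Surjective (fun φ : V =>
      fun t : {j // s u j = b} × I × Fin (u + 1) => lam t.1 t.2.1 t.2.2 φ))
    {w : V →ₗ[F] F} (hw : w ≠ 0) {v : ℕ → ℕ} (hv : Antitone v) (hvM : v M = 0) (B d : ℕ)
    (hd : ∑ u ∈ range M, (v u - v (u + 1)) * κ u + B + (Fintype.card J + 1) * finrank F V ≤ d + 1)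
    (a : J → I → ℕ → ℕ → F) (a' : ℕ → F)
    (h : ∀ φ : V, ∀ l ≤ d, ∑ j, ∑ i, ∑ u ∈ range M, ∑ k ∈ range (v u),
        a j i u k * ((l.choose k : F) * (α j) ^ (l - k)) * lam j i u φ +
      ∑ b ∈ range B, a' b * ((l.choose b : F) * c ^ (l - b)) * w φ = 0) :
    (∀ j i, ∀ u < M, ∀ k < v u, a j i u k = 0) ∧ ∀ b < B, a' b = 0 := by
  classical
  have hvle : ∀ u, v u ≤ v 0 := fun u => hv (Nat.zero_le _)
  set β : Option J → F := fun x => x.elim c α with hβ
  have hβi : Function.Injective β := by
    intro x y hxy
    rcases x with _ | x <;> rcases y with _ | y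
    · rfl
    · exact absurd hxy.symm (hc y)
    · exact absurd hxy (hc x)
    · exact congrArg some (hα hxy)
  set n : Option J → ℕ := fun x => x.elim B (fun _ => v 0) with hn
  set AA : Option J → ℕ → (V →ₗ[F] F) := fun x k => x.elim (a' k • w)
    (fun j => ∑ i, ∑ u ∈ range M, if k < v u then a j i u k • lam j i u else 0) with hAA
  have hAs : ∀ j k φ, AA (some j) k φ =
      ∑ i, ∑ u ∈ range M, if k < v u then a j i u k * lam j i u φ else 0 := by
    intro j k φ
    simp only [hAA, Option.elim_some, LinearMap.sum_apply]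
    refine Finset.sum_congr rfl fun i _ => Finset.sum_congr rfl fun u _ => ?_
    split_ifs
    · rw [LinearMap.smul_apply, smul_eq_mul]
    · rfl
  have hAn : ∀ k φ, AA none k φ = a' k * w φ := by
    intro k φ
    simp only [hAA, Option.elim_none, LinearMap.smul_apply, smul_eq_mul]
  set P : V →ₗ[F] F[X] :=
    ∑ x, ∑ k ∈ range (n x), (AA x k).smulRight (tm β n x k) with hP
  have hPa : ∀ φ, P φ = ∑ x, ∑ k ∈ range (n x), C (AA x k φ) * tm β n x k := by
    intro φ
    simp only [hP, LinearMap.sum_apply, LinearMap.smulRight_apply, Polynomial.smul_eq_C_mul]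
  have hrel : ∀ φ, ∀ l ≤ d, ∑ x, ∑ k ∈ range (n x),
      AA x k φ * ((l.choose k : F) * (β x) ^ (l - k)) = 0 := by
    intro φ l hl
    rw [Fintype.sum_option, ← h φ l hl, add_comm]
    congr 1
    · refine Finset.sum_congr rfl fun j _ => ?_
      simp only [hn, hβ, Option.elim_some, hAs, Finset.sum_mul]
      rw [Finset.sum_comm]
      refine Finset.sum_congr rfl fun i _ => ?_
      rw [Finset.sum_comm]
      refine Finset.sum_congr rfl fun u hu => ?_
      have h1 : range (v u) = (range (v 0)).filter (fun k => k < v u) := by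
        ext k
        simp only [Finset.mem_range, Finset.mem_filter]
        have := hvle u
        omega
      rw [h1, Finset.sum_filter]
      refine Finset.sum_congr rfl fun k _ => ?_
      split_ifs
      · ring
      · rw [zero_mul]
    · simp only [hn, hβ, Option.elim_none, hAn]
      refine Finset.sum_congr rfl fun b _ => ?_
      ring
  have hnsum : ∑ x, n x = Fintype.card J * v 0 + B := by
    rw [Fintype.sum_option]
    simp only [hn, Option.elim_none, Option.elim_some, Finset.sum_const, Finset.card_univ,
      smul_eq_mul]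
    ring
  -- the kernels
  set K : J → ℕ → Submodule F V := fun j u =>
    ⨅ i, ⨅ u' : ℕ, ⨅ (_ : u' ≤ u), LinearMap.ker (lam j i u') with hK
  have hKm : ∀ j u φ, φ ∈ K j u ↔ ∀ i, ∀ u' ≤ u, lam j i u' φ = 0 := by
    intro j u φ
    simp only [hK, Submodule.mem_iInf, LinearMap.mem_ker]
  have hP0 : ∀ φ, P φ = 0 := by
    by_contra hne
    have hUne : LinearMap.range P ≠ ⊥ := by
      intro hb
      rw [LinearMap.range_eq_bot] at hb
      exact hne fun φ => by rw [hb]; rfl
    have hsur : Function.Surjective P.rangeRestrict := LinearMap.surjective_rangeRestrict P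
    have hfr : finrank F (LinearMap.range P) ≤ finrank F V := LinearMap.finrank_range_le P
    have hfr1 : 1 ≤ finrank F (LinearMap.range P) :=
      Nat.one_le_iff_ne_zero.2 fun h => hUne (Submodule.finrank_eq_zero.1 h)
    have hcnt : ∀ u < M, ∀ b, ∀ x : J → LinearMap.range P, ∃ y : LinearMap.range P,
        ∀ j, s u j = b → y - x j ∈ (K j u).map P.rangeRestrict := by
      intro u hu b x
      choose φ hφ using fun j => hsur (x j)
      obtain ⟨ψ, hψ⟩ := hJ u hu b fun t => lam t.1 t.2.1 t.2.2 (φ t.1)
      refine ⟨P.rangeRestrict ψ, fun j hj => ?_⟩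
      rw [← hφ j, ← map_sub]
      refine Submodule.mem_map_of_mem ((hKm j u _).2 fun i u' hu' => ?_)
      have h1 : lam j i u' ψ = lam j i u' (φ j) :=
        congrFun hψ (⟨j, hj⟩, i, ⟨u', Nat.lt_succ_of_le hu'⟩)
      rw [map_sub, h1, sub_self]
    have key := wr_main hβi B d M v hv hvM κ (LinearMap.range P) hUne
      (fun j u => (K j u).map P.rangeRestrict)
      (by
        intro j u u' huu
        refine Submodule.map_mono fun φ hφ => ?_
        rw [hKm] at hφ ⊢
        exact fun i t ht => hφ i t (ht.trans huu))
      (by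
        intro j u hu q hq
        obtain ⟨φ, hφ, rfl⟩ := (Submodule.mem_map).1 hq
        rw [hKm] at hφ
        show _ ∣ P φ
        rw [hPa φ]
        refine pf_dvd β n (fun x k => AA x k φ) (some j) (v (u + 1)) ?_
        intro k hk1 hk2
        simp only [hAs]
        refine Finset.sum_eq_zero fun i _ => Finset.sum_eq_zero fun u' hu' => ?_
        split_ifs with hkv
        · rcases Nat.lt_or_ge u u' with huu | huu
          · exfalso
            have h2 := hv (show u + 1 ≤ u' by omega)
            omega
          · rw [hφ i u' huu, mul_zero]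
        · rfl)
      ((LinearMap.ker w).map P.rangeRestrict)
      (by
        obtain ⟨x0, hx0⟩ : ∃ x0, w x0 ≠ 0 := by
          by_contra hno
          push Not at hno
          exact hw (LinearMap.ext hno)
        have h1 : (⊤ : Submodule F V) = LinearMap.ker w ⊔ Submodule.span F {x0} := by
          refine (eq_top_iff.2 fun φ _ => ?_).symm
          rw [Submodule.mem_sup]
          refine ⟨φ - (w φ / w x0) • x0, ?_, (w φ / w x0) • x0,
            Submodule.smul_mem _ _ (Submodule.mem_span_singleton_self _), sub_add_cancel _ _⟩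
          rw [LinearMap.mem_ker, map_sub, map_smul, smul_eq_mul, div_mul_cancel₀ _ hx0, sub_self]
        have h2 : (⊤ : Submodule F (LinearMap.range P)) =
            (LinearMap.ker w).map P.rangeRestrict ⊔
              (Submodule.span F {x0}).map P.rangeRestrict := by
          rw [← Submodule.map_sup, ← h1, Submodule.map_top, LinearMap.range_eq_top.2 hsur]
        calc finrank F (LinearMap.range P)
            = finrank F (⊤ : Submodule F (LinearMap.range P)) := (finrank_top _ _).symm
          _ ≤ finrank F ((LinearMap.ker w).map P.rangeRestrict) +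
              finrank F ((Submodule.span F {x0}).map P.rangeRestrict) := by
              rw [h2]
              exact Submodule.finrank_add_le_finrank_add_finrank _ _
          _ ≤ finrank F ((LinearMap.ker w).map P.rangeRestrict) + 1 := by
              refine Nat.add_le_add_left ((Submodule.finrank_map_le _ _).trans ?_) _
              exact (finrank_span_le_card ({x0} : Set V)).trans (by simp))
      (by
        intro q hq
        obtain ⟨φ, hφ, rfl⟩ := (Submodule.mem_map).1 hq
        rw [LinearMap.mem_ker] at hφ
        show _ ∣ P φ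
        rw [hPa φ]
        have h1 := pf_dvd β n (fun x k => AA x k φ) none 0 (by
          intro k _ _
          simp only [hAn]
          rw [hφ, mul_zero])
        exact h1)
      (by
        rintro q ⟨φ, rfl⟩ i hi
        rw [hPa φ]
        exact coeff_eq β n (fun x k => AA x k φ) d (hrel φ) i (by rw [hnsum]; exact hi))
      (by
        intro u hu
        have h1 : ∀ b, (univ.filter fun j => s u j = b).card * finrank F (LinearMap.range P) ≤
            finrank F (LinearMap.range P) +
              ∑ j ∈ univ.filter (fun j => s u j = b), finrank F ((K j u).map P.rangeRestrict) :=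
          fun b => dim_count (fun j => s u j = b) (fun j => (K j u).map P.rangeRestrict)
            (hcnt u hu b)
        have h2 := Finset.sum_le_sum fun b (_ : b ∈ range (κ u)) => h1 b
        rw [← Finset.sum_mul, Finset.sum_add_distrib, Finset.sum_const, Finset.card_range,
          smul_eq_mul, Finset.sum_fiberwise_of_maps_to
            (fun j _ => Finset.mem_range.2 (hs u hu j)) (fun j =>
              finrank F ((K j u).map P.rangeRestrict)),
          ← Finset.card_eq_sum_card_fiberwise
            (fun j _ => Finset.mem_coe.2 (Finset.mem_range.2 (hs u hu j))), Finset.card_univ] at h2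
        exact h2)
    have h5 : (Fintype.card J + 1) * (finrank F (LinearMap.range P) - 1) +
        (Fintype.card J + 1) ≤ (Fintype.card J + 1) * finrank F V := by
      calc _ = (Fintype.card J + 1) * (finrank F (LinearMap.range P) - 1 + 1) := by ring
        _ ≤ _ := Nat.mul_le_mul_left _ (by omega)
    omega
  have hA0 : ∀ x k φ, k < n x → AA x k φ = 0 := fun x k φ hk =>
    pf_indep hβi n (fun x k => AA x k φ) (by rw [← hPa φ]; exact hP0 φ) x k hk
  refine ⟨fun j i u hu k hk => ?_, fun b hb => ?_⟩
  · obtain ⟨φ, hφ⟩ := hJ (M - 1) (by omega) (s (M - 1) j)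
      fun t => if t.1.1 = j ∧ t.2.1 = i ∧ (t.2.2 : ℕ) = u then 1 else 0
    have h1 := hA0 (some j) k φ (lt_of_lt_of_le hk (hvle u))
    rw [hAs] at h1
    have h2 : ∀ i', ∀ u' < M, lam j i' u' φ = if i' = i ∧ u' = u then 1 else 0 := by
      intro i' u' hu'
      have h3 : lam j i' u' φ = if j = j ∧ i' = i ∧ u' = u then 1 else 0 :=
        congrFun hφ (⟨j, rfl⟩, i', ⟨u', by omega⟩)
      rw [h3]
      by_cases h4 : i' = i ∧ u' = u
      · rw [if_pos h4, if_pos ⟨rfl, h4.1, h4.2⟩]
      · rw [if_neg h4, if_neg fun h5 => h4 ⟨h5.2.1, h5.2.2⟩]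
    rw [Finset.sum_eq_single i, Finset.sum_eq_single u, if_pos hk, h2 i u hu,
      if_pos ⟨rfl, rfl⟩, mul_one] at h1
    · exact h1
    · intro u' hu' hne
      have h6 : lam j i u' φ = 0 := by
        rw [h2 i u' (mem_range.1 hu'), if_neg fun h5 => hne h5.2]
      rw [h6, mul_zero, ite_self]
    · intro hno
      exact absurd (mem_range.2 hu) hno
    · intro i' _ hne
      refine Finset.sum_eq_zero fun u' hu' => ?_
      have h6 : lam j i' u' φ = 0 := by
        rw [h2 i' u' (mem_range.1 hu'), if_neg fun h5 => hne h5.1]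
      rw [h6, mul_zero, ite_self]
    · intro hno
      exact absurd (mem_univ i) hno
  · obtain ⟨x0, hx0⟩ : ∃ x0, w x0 ≠ 0 := by
      by_contra hno
      push Not at hno
      exact hw (LinearMap.ext hno)
    have h1 := hA0 none b x0 hb
    rw [hAn] at h1
    exact (mul_eq_zero.1 h1).resolve_right hx0

end Pool.Agent.H77.SF
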