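import Mathlib

/-! # [H77 SF Sie] SIEGEL'S LEMMA with separate sizes at the infinite places and a forced
nonvanishing (THEOREM SF, think 1396, STEP 2)

`K` a number field, `el c t ∈ 𝓞 K` (`c : C` the conditions, `t : T` the unknowns), `E b t ∈ ℂ`
(`b < B`) further functionals, such that the vectors `(σ (el c t))_t` (`c : C`, `σ : K → ℂ`) and
`(E b t)_t` are linearly independent over `ℂ`. Then there is an integer vector `y`, `|y t| ≤ Y`, with
all `∑ y t el c t = 0` and some `∑ y t E b t ≠ 0`, as soon as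
`(∏_w (4 N ρ w)^(mult w))^(#C) ≤ Y^B`, `N = [K : ℚ] #C + B`, `w (el c t) ≤ ρ w`, `1 ≤ ρ w`.

Proof. `N` columns `T'` on which the matrix is invertible (`cols`); pigeonhole on the vectors
`{0..Y}^T'`: the value at the place `w` is cut into squares of side `2/3`; if all values of two
vectors lie in the same squares, then all `w (∑ z t el c t) < 1`, so `∑ z t el c t = 0`. -/

namespace Pool.Agent.H77.SF

open Finset Module NumberField

/-- a square invertible block of columns -/
theorem cols {F ι T : Type*} [Field F] [Fintype ι] [Fintype T] (R : ι → T → F)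
    (hR : LinearIndependent F R) :
    ∃ T' : Finset T, T'.card = Fintype.card ι ∧ ∀ y : T → F, (∀ t, t ∉ T' → y t = 0) →
      (∀ i, ∑ t, y t * R i t = 0) → ∀ t, y t = 0 := by
  classical
  set col : T → (ι → F) := fun t i => R i t with hcol
  obtain ⟨κ, a, ha, hsp, hli⟩ := exists_linearIndependent' F col
  have htop : Submodule.span F (Set.range col) = ⊤ := by
    by_contra hne
    obtain ⟨f, hf, hle⟩ := Submodule.exists_le_ker_of_lt_top _ (lt_top_iff_ne_top.2 hne)
    have h1 : ∀ t, ∑ i, f (fun j => if i = j then 1 else 0) * R i t = 0 := by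
      intro t
      have h2 : f (col t) = 0 := hle (Submodule.subset_span ⟨t, rfl⟩)
      rw [LinearMap.pi_apply_eq_sum_univ f (col t)] at h2
      refine (Finset.sum_congr rfl fun i _ => ?_).trans h2
      rw [smul_eq_mul, mul_comm]
    have h3 := Fintype.linearIndependent_iff.1 hR (fun i => f (fun j => if i = j then 1 else 0)) (by
      funext t
      rw [Finset.sum_apply]
      exact h1 t)
    refine hf (LinearMap.ext fun x => ?_)
    rw [LinearMap.pi_apply_eq_sum_univ f x]
    simp [h3]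
  have : Finite κ := Finite.of_injective a ha
  have : Fintype κ := Fintype.ofFinite κ
  have hB : ⊤ ≤ Submodule.span F (Set.range (col ∘ a)) := by rw [hsp, htop]
  have hcard : Fintype.card κ = Fintype.card ι := by
    rw [← Module.finrank_eq_card_basis (Basis.mk hli hB), Module.finrank_fintype_fun_eq_card]
  refine ⟨univ.image a, by rw [Finset.card_image_of_injective _ ha, Finset.card_univ, hcard], ?_⟩
  intro y hy hR0
  have h1 : ∀ i, ∑ k, y (a k) * R i (a k) = 0 := by
    intro i
    rw [← hR0 i, ← Finset.sum_image (f := fun t => y t * R i t) (fun k _ k' _ h => ha h)]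
    refine Finset.sum_subset (Finset.subset_univ _) fun t _ ht => ?_
    rw [hy t ht, zero_mul]
  have h2 := Fintype.linearIndependent_iff.1 hli (fun k => y (a k)) (by
    funext i
    rw [Finset.sum_apply]
    exact h1 i)
  intro t
  by_cases ht : t ∈ univ.image a
  · obtain ⟨k, _, rfl⟩ := Finset.mem_image.1 ht
    exact h2 k
  · exact hy t ht

/-- the cell of a real number in `[-R, R]`, cells of length `2/3` -/
noncomputable def cell (R x : ℝ) : Fin (⌊3 * R⌋₊ + 1) :=
  Fin.ofNat _ (⌊(x + R) * (3 / 2)⌋₊)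

theorem cell_eq {R x x' : ℝ} (hx : |x| ≤ R) (hx' : |x'| ≤ R) (h : cell R x = cell R x') :
    |x - x'| < 2 / 3 := by
  have hb : ∀ z : ℝ, |z| ≤ R → ⌊(z + R) * (3 / 2)⌋₊ < ⌊3 * R⌋₊ + 1 := by
    intro z hz
    refine Nat.lt_succ_of_le (Nat.floor_le_floor ?_)
    have := (abs_le.1 hz).2
    linarith
  have h1 : ⌊(x + R) * (3 / 2)⌋₊ = ⌊(x' + R) * (3 / 2)⌋₊ := by
    have h2 := congrArg Fin.val h
    simp only [cell, Fin.ofNat] at h2
    rwa [Nat.mod_eq_of_lt (hb x hx), Nat.mod_eq_of_lt (hb x' hx')] at h2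
  have hp : ∀ z : ℝ, |z| ≤ R → (⌊(z + R) * (3 / 2)⌋₊ : ℝ) ≤ (z + R) * (3 / 2) ∧
      (z + R) * (3 / 2) < ⌊(z + R) * (3 / 2)⌋₊ + 1 := by
    intro z hz
    refine ⟨Nat.floor_le ?_, Nat.lt_floor_add_one _⟩
    have := (abs_le.1 hz).1
    linarith
  obtain ⟨h3, h4⟩ := hp x hx
  obtain ⟨h5, h6⟩ := hp x' hx'
  rw [h1] at h3 h4
  rw [abs_lt]
  constructor <;> linarith

/-- an integer with small values at all infinite places vanishes -/
theorem int_zero {K : Type*} [Field K] [NumberField K] (x : 𝓞 K)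
    (h : ∀ w : InfinitePlace K, w (x : K) < 1) : x = 0 := by
  by_contra hx
  obtain ⟨w⟩ : Nonempty (InfinitePlace K) := inferInstance
  exact absurd (InfinitePlace.one_le_of_lt_one hx fun z _ => h z) (not_le.2 (h w))

/-- **STEP 2.** -/
theorem siegel {K : Type*} [Field K] [NumberField K] {T C : Type*} [Fintype T] [Fintype C]
    (el : C → T → 𝓞 K) {B : ℕ} (hB : 1 ≤ B) (E : Fin B → T → ℂ)
    (hind : LinearIndependent ℂ (Sum.elim
      (fun x : C × (K →+* ℂ) => fun t => x.2 (algebraMap (𝓞 K) K (el x.1 t))) E))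
    (ρ : InfinitePlace K → ℝ) (hρ1 : ∀ w, 1 ≤ ρ w)
    (hρ : ∀ (w : InfinitePlace K) c t, w (algebraMap (𝓞 K) K (el c t)) ≤ ρ w)
    {Y : ℕ} (hY1 : 1 ≤ Y)
    (hY : (∏ w : InfinitePlace K,
      (4 * ((finrank ℚ K * Fintype.card C + B : ℕ) : ℝ) * ρ w) ^ w.mult) ^ Fintype.card C
        ≤ (Y : ℝ) ^ B) :
    ∃ y : T → ℤ, (∀ t, |y t| ≤ Y) ∧ (∀ c, ∑ t, (y t : 𝓞 K) * el c t = 0) ∧
      ∃ b, ∑ t, (y t : ℂ) * E b t ≠ 0 := by
  classical
  obtain ⟨T', hT', hinv⟩ := cols _ hind
  set N := finrank ℚ K * Fintype.card C + B with hN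
  have hcardN : T'.card = N := by
    rw [hT', Fintype.card_sum, Fintype.card_prod, Fintype.card_fin, Embeddings.card, hN, mul_comm]
  have hN1 : (1 : ℝ) ≤ (N : ℝ) := by
    have : 1 ≤ N := by omega
    exact_mod_cast this
  have hY1' : (1 : ℝ) ≤ (Y : ℝ) := by exact_mod_cast hY1
  -- extension by zero
  set ex : (T' → Fin (Y + 1)) → T → ℤ :=
    fun f t => if h : t ∈ T' then ((f ⟨t, h⟩ : ℕ) : ℤ) else 0 with hex
  have hex0 : ∀ f t, 0 ≤ ex f t ∧ ex f t ≤ Y := by
    intro f t
    simp only [hex]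
    split_ifs with h
    · refine ⟨by positivity, ?_⟩
      have := (f ⟨t, h⟩).2
      have h3 : ((f ⟨t, h⟩ : Fin (Y + 1)) : ℕ) ≤ Y := by omega
      exact_mod_cast h3
    · exact ⟨le_rfl, by positivity⟩
  have hexs : ∀ f t, t ∉ T' → ex f t = 0 := fun f t h => by simp only [hex, dif_neg h]
  -- the values
  set val : (T' → Fin (Y + 1)) → C → 𝓞 K := fun f c => ∑ t, (ex f t : 𝓞 K) * el c t with hval
  set R : InfinitePlace K → ℝ := fun w => (N : ℝ) * ρ w * Y with hR
  have hR1 : ∀ w, 1 ≤ R w := by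
    intro w
    simp only [hR]
    have h3 := hρ1 w
    have h4 : (1 : ℝ) ≤ (N : ℝ) * ρ w := by nlinarith
    nlinarith
  have hvR : ∀ f c (w : InfinitePlace K), ‖w.embedding (algebraMap (𝓞 K) K (val f c))‖ ≤ R w := by
    intro f c w
    have h3 : w.embedding (algebraMap (𝓞 K) K (val f c)) =
        ∑ t ∈ T', ((ex f t : ℤ) : ℂ) * w.embedding (algebraMap (𝓞 K) K (el c t)) := by
      simp only [hval, map_sum, map_mul, map_intCast]
      refine (Finset.sum_subset (Finset.subset_univ _) fun t _ ht => ?_).symm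
      rw [hexs f t ht, Int.cast_zero, zero_mul]
    rw [h3]
    refine (norm_sum_le _ _).trans ?_
    calc ∑ t ∈ T', ‖((ex f t : ℤ) : ℂ) * w.embedding (algebraMap (𝓞 K) K (el c t))‖
        ≤ ∑ t ∈ T', (ρ w * Y) := by
          refine Finset.sum_le_sum fun t _ => ?_
          rw [norm_mul, InfinitePlace.norm_embedding_eq, Complex.norm_intCast, mul_comm]
          refine mul_le_mul (hρ w c t) ?_ (abs_nonneg _) (by linarith [hρ1 w])
          obtain ⟨h4, h5⟩ := hex0 f t
          rw [abs_of_nonneg (by exact_mod_cast h4)]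
          exact_mod_cast h5
      _ = R w := by
          rw [Finset.sum_const, hcardN, nsmul_eq_mul]
          simp only [hR]
          ring
  -- pigeonhole
  set cl : (T' → Fin (Y + 1)) →
      (C → (w : InfinitePlace K) → (Fin w.mult → Fin (⌊3 * R w⌋₊ + 1))) :=
    fun f c w i => if (i : ℕ) = 0 then cell (R w) (w.embedding (algebraMap (𝓞 K) K (val f c))).re
      else cell (R w) (w.embedding (algebraMap (𝓞 K) K (val f c))).im with hcl
  have hcard : Fintype.card (C → (w : InfinitePlace K) → (Fin w.mult → Fin (⌊3 * R w⌋₊ + 1))) <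
      Fintype.card (T' → Fin (Y + 1)) := by
    have h3 : Fintype.card (C → (w : InfinitePlace K) → (Fin w.mult → Fin (⌊3 * R w⌋₊ + 1))) =
        (∏ w : InfinitePlace K, (⌊3 * R w⌋₊ + 1) ^ w.mult) ^ Fintype.card C := by
      simp only [Fintype.card_pi, Fintype.card_fin, Finset.prod_const, Finset.card_univ]
    have h4 : Fintype.card (T' → Fin (Y + 1)) = (Y + 1) ^ N := by
      simp [hcardN]
    rw [h3, h4]
    have h5 : ((∏ w : InfinitePlace K, (⌊3 * R w⌋₊ + 1) ^ w.mult : ℕ) : ℝ) ≤
        (Y : ℝ) ^ (finrank ℚ K) * ∏ w : InfinitePlace K, (4 * (N : ℝ) * ρ w) ^ w.mult := by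
      rw [← InfinitePlace.sum_mult_eq (K := K), ← Finset.prod_pow_eq_pow_sum,
        ← Finset.prod_mul_distrib]
      push_cast
      refine Finset.prod_le_prod (fun w _ => by positivity) fun w _ => ?_
      rw [← mul_pow]
      refine pow_le_pow_left₀ (by positivity) ?_ _
      have h6 : (⌊3 * R w⌋₊ : ℝ) ≤ 3 * R w := Nat.floor_le (by linarith [hR1 w])
      have h7 := hR1 w
      have h8 : (Y : ℝ) * (4 * (N : ℝ) * ρ w) = 4 * R w := by
        simp only [hR]
        ring
      rw [h8]
      linarith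
    have h6 : (((∏ w : InfinitePlace K, (⌊3 * R w⌋₊ + 1) ^ w.mult) ^ Fintype.card C : ℕ) : ℝ) <
        (((Y + 1) ^ N : ℕ) : ℝ) := by
      push_cast at h5 ⊢
      calc (∏ w : InfinitePlace K, ((⌊3 * R w⌋₊ : ℝ) + 1) ^ w.mult) ^ Fintype.card C
          ≤ ((Y : ℝ) ^ (finrank ℚ K) *
              ∏ w : InfinitePlace K, (4 * (N : ℝ) * ρ w) ^ w.mult) ^ Fintype.card C :=
            pow_le_pow_left₀ (Finset.prod_nonneg fun w _ => by positivity) h5 _
        _ = (Y : ℝ) ^ (finrank ℚ K * Fintype.card C) *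
              (∏ w : InfinitePlace K, (4 * (N : ℝ) * ρ w) ^ w.mult) ^ Fintype.card C := by
            rw [mul_pow, ← pow_mul]
        _ ≤ (Y : ℝ) ^ (finrank ℚ K * Fintype.card C) * (Y : ℝ) ^ B :=
            mul_le_mul_of_nonneg_left hY (by positivity)
        _ = (Y : ℝ) ^ N := by rw [← pow_add]
        _ < ((Y : ℝ) + 1) ^ N := pow_lt_pow_left₀ (lt_add_one _) (by positivity) (by omega)
    exact_mod_cast h6
  obtain ⟨f, f', hne, heq⟩ := Fintype.exists_ne_map_eq_of_card_lt cl hcard
  have hz : ∀ c, ∑ t, ((ex f t - ex f' t : ℤ) : 𝓞 K) * el c t = 0 := by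
    intro c
    have h3 : ∑ t, ((ex f t - ex f' t : ℤ) : 𝓞 K) * el c t = val f c - val f' c := by
      simp only [hval, ← Finset.sum_sub_distrib]
      refine Finset.sum_congr rfl fun t _ => ?_
      push_cast
      ring
    rw [h3]
    refine int_zero _ fun w => ?_
    have h9 : w (algebraMap (𝓞 K) K (val f c - val f' c)) =
        ‖w.embedding (algebraMap (𝓞 K) K (val f c)) -
          w.embedding (algebraMap (𝓞 K) K (val f' c))‖ := by
      rw [← InfinitePlace.norm_embedding_eq, map_sub, map_sub]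
    refine lt_of_eq_of_lt h9 ?_
    have h4 : ∀ i : Fin w.mult, cl f c w i = cl f' c w i := fun i => by rw [heq]
    set z := w.embedding (algebraMap (𝓞 K) K (val f c)) with hz
    set z' := w.embedding (algebraMap (𝓞 K) K (val f' c)) with hz'
    have hre : |z.re - z'.re| < 2 / 3 := by
      have h5 := h4 ⟨0, InfinitePlace.mult_pos⟩
      simp only [hcl, if_true] at h5
      exact cell_eq ((Complex.abs_re_le_norm _).trans (hvR f c w))
        ((Complex.abs_re_le_norm _).trans (hvR f' c w)) h5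
    have him : |z.im - z'.im| < 2 / 3 := by
      rcases InfinitePlace.isReal_or_isComplex w with hw | hw
      · have h5 : ∀ x : K, (w.embedding x).im = 0 := by
          intro x
          rw [← InfinitePlace.embedding_of_isReal_apply hw]
          exact Complex.ofReal_im _
        rw [hz, hz', h5, h5, sub_self, abs_zero]
        norm_num
      · have h5 := h4 ⟨1, by rw [hw.mult_eq_two]; norm_num⟩
        simp only [hcl, one_ne_zero, if_false] at h5
        exact cell_eq ((Complex.abs_im_le_norm _).trans (hvR f c w))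
          ((Complex.abs_im_le_norm _).trans (hvR f' c w)) h5
    have h6 : ‖z - z'‖ ^ 2 < 1 := by
      rw [← Complex.normSq_eq_norm_sq, Complex.normSq_apply, Complex.sub_re, Complex.sub_im]
      have h7 := abs_lt.1 hre
      have h8 := abs_lt.1 him
      nlinarith [h7.1, h7.2, h8.1, h8.2]
    nlinarith [norm_nonneg (z - z')]
  refine ⟨fun t => ex f t - ex f' t, ?_, hz, ?_⟩
  · intro t
    obtain ⟨h3, h4⟩ := hex0 f t
    obtain ⟨h5, h6⟩ := hex0 f' t
    rw [abs_le]
    constructor <;> linarith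
  · by_contra hno
    push Not at hno
    have h3 := hinv (fun t => ((ex f t - ex f' t : ℤ) : ℂ)) (by
      intro t ht
      simp only [hexs f t ht, hexs f' t ht, sub_self, Int.cast_zero]) (by
      rintro (⟨c, σ⟩ | b)
      · have h4 := congrArg (fun x => σ (algebraMap (𝓞 K) K x)) (hz c)
        simp only [map_sum, map_mul, map_intCast, map_zero] at h4
        exact h4
      · exact hno b)
    refine hne (funext fun t => Fin.ext ?_)
    have h4 := h3 t.1
    have h5 : ex f t.1 - ex f' t.1 = 0 := by exact_mod_cast h4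
    simp only [hex, dif_pos t.2, Subtype.coe_eta] at h5
    have h6 : ((f t : ℕ) : ℤ) = ((f' t : ℕ) : ℤ) := sub_eq_zero.1 h5
    exact_mod_cast h6

/-- **STEP 2**, sizes for each embedding -/
theorem siegel_emb {K : Type*} [Field K] [NumberField K] {T C : Type*} [Fintype T] [Fintype C]
    (el : C → T → 𝓞 K) {B : ℕ} (hB : 1 ≤ B) (E : Fin B → T → ℂ)
    (hind : LinearIndependent ℂ (Sum.elim
      (fun x : C × (K →+* ℂ) => fun t => x.2 (algebraMap (𝓞 K) K (el x.1 t))) E))
    (ρ : (K →+* ℂ) → ℝ) (hρ1 : ∀ σ, 1 ≤ ρ σ)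
    (hρ : ∀ (σ : K →+* ℂ) c t, ‖σ (algebraMap (𝓞 K) K (el c t))‖ ≤ ρ σ)
    {Y : ℕ} (hY1 : 1 ≤ Y)
    (hY : (∏ σ : K →+* ℂ,
      (4 * ((finrank ℚ K * Fintype.card C + B : ℕ) : ℝ) * ρ σ)) ^ Fintype.card C
        ≤ (Y : ℝ) ^ B) :
    ∃ y : T → ℤ, (∀ t, |y t| ≤ Y) ∧ (∀ c, ∑ t, (y t : 𝓞 K) * el c t = 0) ∧
      ∃ b, ∑ t, (y t : ℂ) * E b t ≠ 0 := by
  classical
  set μ : InfinitePlace K → ℝ := fun w =>
    min (ρ w.embedding) (ρ (ComplexEmbedding.conjugate w.embedding)) with hμ
  have hμσ : ∀ σ : K →+* ℂ, μ (InfinitePlace.mk σ) ≤ ρ σ := by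
    intro σ
    rcases InfinitePlace.embedding_mk_eq σ with h | h
    · exact (min_le_left _ _).trans (by rw [h])
    · refine (min_le_right _ _).trans ?_
      rw [h, ComplexEmbedding.involutive_conjugate]
  refine siegel el hB E hind μ (fun w => le_min (hρ1 _) (hρ1 _)) (fun w c t => ?_) hY1 ?_
  · refine le_min ?_ ?_
    · rw [← InfinitePlace.norm_embedding_eq]
      exact hρ _ c t
    · rw [← InfinitePlace.norm_embedding_eq]
      refine le_trans (le_of_eq ?_) (hρ (ComplexEmbedding.conjugate w.embedding) c t)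
      rw [ComplexEmbedding.conjugate_coe_eq, Complex.norm_conj]
  · refine le_trans (pow_le_pow_left₀ ?_ ?_ _) hY
    · exact Finset.prod_nonneg fun w _ => pow_nonneg (by
        have : 0 ≤ μ w := le_min (by linarith [hρ1 w.embedding])
          (by linarith [hρ1 (ComplexEmbedding.conjugate w.embedding)])
        positivity) _
    · have h1 : ∏ w : InfinitePlace K,
          (4 * ((finrank ℚ K * Fintype.card C + B : ℕ) : ℝ) * μ w) ^ w.mult =
          ∏ σ : K →+* ℂ,
            (4 * ((finrank ℚ K * Fintype.card C + B : ℕ) : ℝ) * μ (InfinitePlace.mk σ)) := by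
        rw [← Finset.prod_fiberwise univ (fun σ : K →+* ℂ => InfinitePlace.mk σ)
          (fun σ => (4 * ((finrank ℚ K * Fintype.card C + B : ℕ) : ℝ) *
            μ (InfinitePlace.mk σ)))]
        refine Finset.prod_congr rfl fun w _ => ?_
        rw [Finset.prod_congr rfl fun σ hσ => by rw [(Finset.mem_filter.1 hσ).2],
          Finset.prod_const, InfinitePlace.card_filter_mk_eq]
      rw [h1]
      refine Finset.prod_le_prod (fun σ _ => ?_) fun σ _ => ?_
      · have : 0 ≤ μ (InfinitePlace.mk σ) := le_min (by linarith [hρ1 (InfinitePlace.mk σ).embedding])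
          (by linarith [hρ1 (ComplexEmbedding.conjugate (InfinitePlace.mk σ).embedding)])
        positivity
      · exact mul_le_mul_of_nonneg_left (hμσ σ) (by positivity)

end Pool.Agent.H77.SF
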