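import Pool.Agent.H77.SF.Cor1
import Pool.Agent.H77.SF.Cor2

/-! # [H77 SF Core] THEOREM SF, chapter [C]: no numerical data with a very small `pi`

`core`: `Dat` is impossible if `|pi| A^(E0 r s m W) ≤ 1` and
`|α - cu/cw| (2^r B)^((88 W + 46) s) ≤ 1`; `E0` is an explicit polynomial.

With `T = - log |pi|`, `L = log (2^r B)`, `kk = (88 W + 46) s`, `q = [T / (kk L)]`:
`cor1`, `size` give `0 ≤ log K + log (1 + 4 s W) - W kk L (q - 2)`. -/

namespace Pool.Agent.H77.SF

open Finset Polynomial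

/-- `2 s (4W + 1)` -/
def kp (s W : ℕ) : ℕ := 2 * s * (4 * W + 1)

/-- the exponent for the distance of `α` to the rational number -/
def kk (s W : ℕ) : ℕ := (88 * W + 46) * s

/-- constant -/
def N0 (r s W : ℕ) : ℕ := 2 * r * s * W * (4 * W + 1) + W

/-- constant -/
def c1 (r s m W : ℕ) : ℕ :=
  m + 2 * (11 * W + (r + 1) * m + 1) + kp s W * (1 + 4 * r * N0 r s W) + 4 * s * W

/-- constant -/
def c3 (r s m W : ℕ) : ℕ := (2 + kp s W) * ((r + 1) * m) + 2 * W * kk s W

/-- the explicit exponent -/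
def E0 (r s m W : ℕ) : ℕ :=
  kk s W * ((3 + kp s W * r) + 2 * (c1 r s m W + (2 + kp s W * r) ^ 2) +
    (c3 r s m W + W) * (r + 1))

/-- `c log q ≤ q + c^2` -/
theorem log_le_aux {q c : ℝ} (hq : 1 ≤ q) (hc : 1 ≤ c) : c * Real.log q ≤ q + c ^ 2 := by
  have h1 : Real.log q = Real.log (q / c) + Real.log c := by
    rw [← Real.log_mul (by positivity) (by positivity)]
    congr 1
    field_simp
  have h2 : Real.log (q / c) ≤ q / c := (Real.log_le_sub_one_of_pos (by positivity)).trans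
    (by linarith)
  have h3 : Real.log c ≤ c := (Real.log_le_sub_one_of_pos (by positivity)).trans (by linarith)
  rw [h1]
  calc c * (Real.log (q / c) + Real.log c) ≤ c * (q / c + c) :=
        mul_le_mul_of_nonneg_left (by linarith) (by linarith)
    _ = q + c ^ 2 := by field_simp

/-- the final inequality in the logarithms -/
theorem num_ineq {r s m W q : ℕ} (hr : 2 ≤ r) (hs : 1 ≤ s) (hm : 1 ≤ m) (hW : 1 ≤ W) (hq : 1 ≤ q)
    {a L T : ℝ} (ha : Real.log 2 ≤ a) (hL : L ≤ (r + 1) * a) (hL1 : 1 ≤ L)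
    (hT : (E0 r s m W : ℝ) * a ≤ T) (hqT : T < ((q : ℝ) + 1) * (kk s W * L))
    (h : 0 ≤ 3 * a + Real.log m + 2 * Real.log ((dd r m W q : ℝ) + 1) + 2 * (dd r m W q) * L +
      kp s W * (Real.log 2 + (r * (Real.log (4 * nn r s W q) + a) + (dd r m W q) * L)) +
      Real.log (1 + 4 * s * W) - W * (kk s W * L) * ((q : ℝ) - 2)) : False := by
  have hq' : (1 : ℝ) ≤ q := by exact_mod_cast hq
  have hW' : (1 : ℝ) ≤ W := by exact_mod_cast hW
  have hm' : (1 : ℝ) ≤ m := by exact_mod_cast hm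
  have hs' : (1 : ℝ) ≤ s := by exact_mod_cast hs
  have hr' : (2 : ℝ) ≤ r := by exact_mod_cast hr
  have hlog2 : (0.69 : ℝ) ≤ Real.log 2 := by
    have := Real.log_two_gt_d9
    linarith
  have ha0 : 0 < a := by linarith
  have hlq : 0 ≤ Real.log q := Real.log_nonneg hq'
  -- the logarithms
  have e1 : Real.log m ≤ m := (Real.log_le_sub_one_of_pos (by linarith)).trans (by linarith)
  have e2 : Real.log 2 ≤ 1 := by
    have := Real.log_le_sub_one_of_pos (x := (2 : ℝ)) (by norm_num)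
    linarith
  have e3 : Real.log (1 + 4 * s * W) ≤ 4 * s * W :=
    (Real.log_le_sub_one_of_pos (by positivity)).trans (by linarith)
  have e4 : Real.log ((dd r m W q : ℝ) + 1) ≤ Real.log q + (11 * W + (r + 1) * m + 1) := by
    have h1 : ((dd r m W q : ℝ) + 1) ≤ q * (11 * W + (r + 1) * m + 1) := by
      unfold dd
      push_cast
      have h5 : 1 * (((r : ℝ) + 1) * m + 1) ≤ q * (((r : ℝ) + 1) * m + 1) :=
        mul_le_mul_of_nonneg_right hq' (by positivity)
      linarith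
    have h2 : (0 : ℝ) < (dd r m W q : ℝ) + 1 := by positivity
    refine (Real.log_le_log h2 h1).trans ?_
    rw [Real.log_mul (by positivity) (by positivity)]
    have h3 : Real.log (11 * W + (r + 1) * m + 1) ≤ 11 * W + (r + 1) * m + 1 :=
      (Real.log_le_sub_one_of_pos (by positivity)).trans (by linarith)
    linarith
  have e5 : Real.log (4 * nn r s W q) ≤ Real.log q + 4 * N0 r s W := by
    have h1 : (4 * nn r s W q : ℝ) = q * (4 * N0 r s W) := by
      unfold nn N0
      push_cast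
      ring
    have h0 : (0 : ℝ) < N0 r s W := by
      have : 0 < N0 r s W := by
        unfold N0
        omega
      exact_mod_cast this
    rw [h1, Real.log_mul (by positivity) (by positivity)]
    have h3 : Real.log (4 * N0 r s W) ≤ 4 * N0 r s W :=
      (Real.log_le_sub_one_of_pos (by positivity)).trans (by linarith)
    linarith
  have hd : (dd r m W q : ℝ) = 11 * q * W + (r + 1) * m := by
    unfold dd
    push_cast
    ring
  have hk : (kk s W : ℝ) = (88 * W + 46) * s := by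
    unfold kk
    push_cast
    ring
  have hkp : (kp s W : ℝ) = 2 * s * (4 * W + 1) := by
    unfold kp
    push_cast
    ring
  have hc1 : (c1 r s m W : ℝ) = m + 2 * (11 * W + (r + 1) * m + 1) +
      kp s W * (1 + 4 * r * N0 r s W) + 4 * s * W := by
    unfold c1
    push_cast
    ring
  have hc3 : (c3 r s m W : ℝ) = (2 + kp s W) * ((r + 1) * m) + 2 * W * kk s W := by
    unfold c3
    push_cast
    ring
  have hE : (E0 r s m W : ℝ) = kk s W * ((3 + kp s W * r) +
      2 * (c1 r s m W + (2 + kp s W * r) ^ 2) + (c3 r s m W + W) * (r + 1)) := by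
    unfold E0
    push_cast
    ring
  have hκ0 : (0 : ℝ) < kk s W := by rw [hk]; positivity
  have hκ'0 : (0 : ℝ) ≤ kp s W := by positivity
  have e6 : (2 + (kp s W : ℝ) * r) * Real.log q ≤ q + (2 + (kp s W : ℝ) * r) ^ 2 :=
    log_le_aux hq' (by nlinarith [mul_nonneg hκ'0 (by linarith : (0 : ℝ) ≤ r)])
  have e7 : 2 * W * L * q ≤ W * L * q * (kk s W - 11 * (2 + kp s W)) := by
    have h1 : (2 : ℝ) ≤ kk s W - 11 * (2 + kp s W) := by
      rw [hk, hkp]
      linarith
    have h2 : (0 : ℝ) ≤ W * L * q := by positivity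
    calc 2 * W * L * q = W * L * q * 2 := by ring
      _ ≤ _ := mul_le_mul_of_nonneg_left h1 h2
  set κ' : ℝ := (kp s W : ℝ) with hκ'
  set κ : ℝ := (kk s W : ℝ) with hκ
  set n0 : ℝ := (N0 r s W : ℝ) with hn0
  set C1 : ℝ := (c1 r s m W : ℝ) with hC1
  set C3 : ℝ := (c3 r s m W : ℝ) with hC3
  -- step 1
  have g1 : 2 * W * L * q ≤ (3 + κ' * r) * a + C1 + (2 + κ' * r) * Real.log q + C3 * L := by
    have f1 : κ' * (Real.log 2 + (r * (Real.log (4 * nn r s W q) + a) +
        (dd r m W q) * L)) ≤ κ' * (1 + (r * (Real.log q + 4 * n0 + a) + (dd r m W q) * L)) := by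
      refine mul_le_mul_of_nonneg_left ?_ hκ'0
      have := mul_le_mul_of_nonneg_left e5 (by linarith : (0 : ℝ) ≤ r)
      linarith
    have f2 : 3 * a + m + 2 * (Real.log q + (11 * W + (r + 1) * m + 1)) +
        2 * (dd r m W q) * L +
        κ' * (1 + (r * (Real.log q + 4 * n0 + a) + (dd r m W q) * L)) + 4 * s * W -
        W * (κ * L) * ((q : ℝ) - 2) =
        (3 + κ' * r) * a + C1 + (2 + κ' * r) * Real.log q + C3 * L -
          W * L * q * (κ - 11 * (2 + κ')) := by
      rw [hc1, hc3, hd]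
      ring
    linarith
  have g2 : (q : ℝ) ≤ W * L * q :=
    le_mul_of_one_le_left (by linarith) (one_le_mul_of_one_le_of_one_le hW' hL1)
  have g3 : W * (L * q) ≤ (3 + κ' * r) * a + C1 + (2 + κ' * r) ^ 2 + C3 * L := by
    have h5 : (W : ℝ) * (L * q) = W * L * q := by ring
    rw [h5]
    linarith
  -- step 2
  have g4 : (E0 r s m W : ℝ) * a < κ * (L * q + L) := by
    refine (hT.trans_lt hqT).trans_eq ?_
    ring
  have hC10 : 0 ≤ C1 := by positivity
  have hC30 : 0 ≤ C3 := by positivity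
  have g5 : C1 + (2 + κ' * r) ^ 2 ≤ 2 * (C1 + (2 + κ' * r) ^ 2) * a := by
    have h5 : (0 : ℝ) ≤ C1 + (2 + κ' * r) ^ 2 := by positivity
    have h6 : (C1 + (2 + κ' * r) ^ 2) * 1 ≤ (C1 + (2 + κ' * r) ^ 2) * (2 * a) :=
      mul_le_mul_of_nonneg_left (by linarith) h5
    linarith
  have g6 : (C3 + W) * L ≤ (C3 + W) * ((r + 1) * a) :=
    mul_le_mul_of_nonneg_left hL (by linarith)
  have g7 : L * q + L ≤ W * (L * q + L) := by
    have h5 : 0 ≤ L * q + L := by positivity
    exact le_mul_of_one_le_left h5 hW'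
  have g8 : W * (L * q + L) ≤ ((3 + κ' * r) + 2 * (C1 + (2 + κ' * r) ^ 2) +
      (C3 + W) * (r + 1)) * a := by
    have h5 : ((3 + κ' * r) + 2 * (C1 + (2 + κ' * r) ^ 2) + (C3 + W) * (r + 1)) * a =
      (3 + κ' * r) * a + 2 * (C1 + (2 + κ' * r) ^ 2) * a + (C3 + W) * ((r + 1) * a) := by ring
    have h6 : (W : ℝ) * (L * q + L) = W * (L * q) + W * L := by ring
    have h7 : (C3 + W) * L = C3 * L + W * L := by ring
    rw [h5, h6]
    linarith
  have g9 : (E0 r s m W : ℝ) * a < (E0 r s m W : ℝ) * a := by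
    calc (E0 r s m W : ℝ) * a < κ * (L * q + L) := g4
      _ ≤ κ * (((3 + κ' * r) + 2 * (C1 + (2 + κ' * r) ^ 2) + (C3 + W) * (r + 1)) * a) :=
          mul_le_mul_of_nonneg_left (g7.trans g8) (by linarith)
      _ = (E0 r s m W : ℝ) * a := by rw [hE]; ring
  exact lt_irrefl _ g9

/-- the exponents -/
theorem expo {W q u b0 : ℕ} {T Λ : ℝ} (hΛ : 0 < Λ) (h1 : q * Λ ≤ T)
    (h2 : T < ((q : ℝ) + 1) * Λ) (hu : u < 4 * W) (hb : b0 < q * W) :
    -T * u + -Λ * ((q * (4 * W - u) - b0 : ℕ) : ℝ) ≤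
      -T * (2 * W : ℕ) + -(W * Λ * ((q : ℝ) - 2)) := by
  have h3 : (q * (4 * (W : ℝ) - u) - q * W) ≤ ((q * (4 * W - u) - b0 : ℕ) : ℝ) := by
    have h4 : ((q * (4 * W - u) : ℕ) : ℝ) - b0 ≤ ((q * (4 * W - u) - b0 : ℕ) : ℝ) := by
      have h5 : q * (4 * W - u) ≤ (q * (4 * W - u) - b0) + b0 := by omega
      have h6 : ((q * (4 * W - u) : ℕ) : ℝ) ≤ ((q * (4 * W - u) - b0 : ℕ) : ℝ) + b0 := by
        exact_mod_cast h5
      linarith
    have h7 : ((q * (4 * W - u) : ℕ) : ℝ) = q * (4 * (W : ℝ) - u) := by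
      rw [Nat.cast_mul, Nat.cast_sub hu.le]
      push_cast
      ring
    have h8 : (b0 : ℝ) ≤ q * W := by exact_mod_cast hb.le
    linarith
  have h9 : Λ * (q * (4 * (W : ℝ) - u) - q * W) ≤
      Λ * ((q * (4 * W - u) - b0 : ℕ) : ℝ) := mul_le_mul_of_nonneg_left h3 hΛ.le
  have hq0 : (0 : ℝ) ≤ q := by positivity
  have hD0 : (0 : ℝ) ≤ W := by positivity
  have h13 : -Λ * ((q * (4 * W - u) - b0 : ℕ) : ℝ) ≤ -(Λ * (q * (4 * (W : ℝ) - u) - q * W)) := by
    linarith
  have h14 : ((2 * W : ℕ) : ℝ) = 2 * W := by push_cast; ring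
  rw [h14]
  rcases le_total (u : ℝ) (2 * W) with h10 | h10
  · have h11 : T * (2 * W - u) ≤ ((q : ℝ) + 1) * Λ * (2 * W - u) :=
      mul_le_mul_of_nonneg_right h2.le (by linarith)
    have h12 : (0 : ℝ) ≤ Λ * u := by positivity
    have h15 : ((q : ℝ) + 1) * Λ * (2 * W - u) - Λ * (q * (4 * (W : ℝ) - u) - q * W) =
        -(W * Λ * ((q : ℝ) - 2)) - Λ * u := by ring
    linarith
  · have h11 : q * Λ * (u - 2 * W) ≤ T * (u - 2 * W) :=
      mul_le_mul_of_nonneg_right h1 (by linarith)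
    have h12 : (0 : ℝ) ≤ W * Λ := by positivity
    have h15 : -(q * Λ * (u - 2 * W)) - Λ * (q * (4 * (W : ℝ) - u) - q * W) =
        -(W * Λ * ((q : ℝ) - 2)) - 2 * (W * Λ) := by ring
    linarith

/-- **Chapter [C].** -/
theorem core {r s m W : ℕ} {A B : ℝ} {p : ℤ[X]} {α : ℝ} {cu cw : ℤ} {π : ℝ} {z : Fin s → ℝ}
    {b : Fin m → Fin s → ℕ → ℤ[X]} {e : ℤ} {Yv : Fin m → ℤ}
    (h : Dat r s m W A B p α cu cw π z b e Yv) (hπ : |π| * A ^ E0 r s m W ≤ 1)
    (hd : |α - (cu : ℝ) / cw| * (2 ^ r * B) ^ kk s W ≤ 1) : False := by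
  have hm : 1 ≤ m := by
    obtain ⟨k, _⟩ := h.Y0
    exact Nat.one_le_of_lt (Nat.lt_of_le_of_lt (Nat.zero_le _) k.2)
  have hr := h.r2
  have hs := h.s1
  have hW := h.W1
  have hA := h.A2
  have hB := h.B1
  have hA0 : 0 < A := by linarith
  have hB0 : 0 < B := by linarith
  set a := Real.log A with ha
  have ha2 : Real.log 2 ≤ a := Real.log_le_log (by norm_num) hA
  have hlog2 : (0.69 : ℝ) ≤ Real.log 2 := by
    have := Real.log_two_gt_d9
    linarith
  have ha0 : 0 < a := by linarith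
  set L := Real.log (2 ^ r * B) with hL
  have hLe : L = r * Real.log 2 + Real.log B := by
    rw [hL, Real.log_mul (by positivity) hB0.ne', Real.log_pow]
  have hLa : L ≤ (r + 1) * a := by
    have h1 : Real.log B ≤ a := Real.log_le_log hB0 h.BA
    have h2 : (r : ℝ) * Real.log 2 ≤ r * a := mul_le_mul_of_nonneg_left ha2 (by positivity)
    rw [hLe]
    linarith
  have hL1 : 1 ≤ L := by
    have h1 : 0 ≤ Real.log B := Real.log_nonneg hB
    have h2 : (2 : ℝ) ≤ r := by exact_mod_cast hr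
    have h3 : 2 * Real.log 2 ≤ r * Real.log 2 := mul_le_mul_of_nonneg_right h2 (by linarith)
    rw [hLe]
    linarith
  have hL0 : 0 < L := by linarith
  have hk0 : (0 : ℝ) < kk s W := by
    have : 0 < kk s W := by
      unfold kk
      exact Nat.mul_pos (by omega) hs
    exact_mod_cast this
  set Λ := (kk s W : ℝ) * L with hΛ
  have hΛ0 : 0 < Λ := by positivity
  have hexpL : (2 ^ r * B) = Real.exp L := by rw [hL, Real.exp_log (by positivity)]
  -- T
  have hπ0 := h.π0
  set T := -Real.log |π| with hT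
  have hexpT : |π| = Real.exp (-T) := by rw [hT, neg_neg, Real.exp_log hπ0]
  have hTE : (E0 r s m W : ℝ) * a ≤ T := by
    have h1 : Real.log (|π| * A ^ E0 r s m W) ≤ 0 := Real.log_nonpos (by positivity) hπ
    rw [Real.log_mul hπ0.ne' (by positivity), Real.log_pow] at h1
    rw [hT]
    linarith
  have hTΛ : Λ ≤ T := by
    have h1 : kk s W * (r + 1) ≤ E0 r s m W := by
      unfold E0
      refine Nat.mul_le_mul_left _ ?_
      have h2 : 1 ≤ c3 r s m W + W := by omega
      have h3 : 1 * (r + 1) ≤ (c3 r s m W + W) * (r + 1) := Nat.mul_le_mul_right _ h2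
      omega
    have h2 : (kk s W * (r + 1) : ℝ) ≤ E0 r s m W := by exact_mod_cast h1
    calc Λ = kk s W * L := rfl
      _ ≤ kk s W * ((r + 1) * a) := mul_le_mul_of_nonneg_left hLa (by positivity)
      _ = (kk s W * (r + 1)) * a := by ring
      _ ≤ E0 r s m W * a := mul_le_mul_of_nonneg_right h2 ha0.le
      _ ≤ T := hTE
  set q := ⌊T / Λ⌋₊ with hq
  have hq1 : 1 ≤ q := by
    rw [hq, Nat.one_le_floor_iff, le_div_iff₀ hΛ0, one_mul]
    exact hTΛ
  have hqT1 : q * Λ ≤ T := by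
    have h1 : (q : ℝ) ≤ T / Λ := Nat.floor_le (div_nonneg (by linarith) hΛ0.le)
    rwa [le_div_iff₀ hΛ0] at h1
  have hqT2 : T < ((q : ℝ) + 1) * Λ := by
    have h1 : T / Λ < q + 1 := Nat.lt_floor_add_one _
    rwa [div_lt_iff₀ hΛ0] at h1
  -- delta
  have hδe : |(cu : ℝ) / cw - α| ≤ Real.exp (-Λ) := by
    rw [abs_sub_comm, Real.exp_neg, ← one_div, le_div_iff₀ (Real.exp_pos _)]
    refine le_trans (le_of_eq ?_) hd
    rw [hexpL, ← Real.exp_nat_mul, hΛ]
  have hδ1 : |(cu : ℝ) / cw - α| ≤ 1 :=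
    hδe.trans (Real.exp_le_one_iff.2 (by linarith))
  -- the auxiliary function
  set d := dd r m W q with hdd
  set Q : ℝ := (4 * (nn r s W q : ℝ) * A) ^ r * (2 ^ r * B) ^ d with hQ
  have hnn1 : (1 : ℝ) ≤ nn r s W q := by
    have : 1 ≤ nn r s W q := by
      unfold nn
      have : 1 ≤ q * W := Nat.mul_pos hq1 hW
      omega
    exact_mod_cast this
  have hQ1 : 1 ≤ Q := by
    refine one_le_mul_of_one_le_of_one_le (one_le_pow₀ ?_) (one_le_pow₀ ?_)
    · nlinarith
    · exact one_le_mul_of_one_le_of_one_le (one_le_pow₀ (by norm_num)) hB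
  set Y : ℕ := ⌈Q⌉₊ ^ kp s W with hY
  have hceil : Q ≤ (⌈Q⌉₊ : ℝ) := Nat.le_ceil _
  have hceil2 : (⌈Q⌉₊ : ℝ) ≤ 2 * Q := by
    have := Nat.ceil_lt_add_one (show 0 ≤ Q by linarith)
    linarith
  have hceil0 : 0 < ⌈Q⌉₊ := Nat.ceil_pos.2 (by linarith)
  obtain ⟨y, hy, hv, b0, hb0, hne⟩ := cor1 h hq1 (Y := Y) (Nat.pow_pos hceil0) (by
    rw [hY]
    push_cast
    exact pow_le_pow_left₀ (by linarith) hceil _)
  have hsz := size h hδ1 (v := fun u => q * (4 * W - u)) hy hv hne
  -- the bound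
  set K : ℝ := A ^ 3 * m * ((d : ℝ) + 1) ^ 2 * (4 * B ^ 2) ^ d * Y with hK
  have hm' : (0 : ℝ) < m := by exact_mod_cast hm
  have hY0 : (0 : ℝ) < Y := by
    have : 0 < Y := Nat.pow_pos hceil0
    exact_mod_cast this
  have hK0 : 0 < K := by positivity
  set M : ℝ := Real.exp (-(W * Λ * ((q : ℝ) - 2))) with hM
  have hterm : |π| ^ (4 * W) + ∑ _i : Fin s, ∑ u ∈ range (4 * W),
      |π| ^ u * |(cu : ℝ) / cw - α| ^ (q * (4 * W - u) - b0) ≤
      |π| ^ (2 * W) * ((1 + 4 * s * W) * M) := by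
    have h1 : |π| ^ (4 * W) ≤ |π| ^ (2 * W) * M := by
      rw [hexpT, ← Real.exp_nat_mul, ← Real.exp_nat_mul, hM, ← Real.exp_add]
      refine Real.exp_le_exp.2 ?_
      push_cast
      have h2 : (0 : ℝ) ≤ W := by positivity
      have h3 : W * (q * Λ) ≤ W * T := mul_le_mul_of_nonneg_left hqT1 h2
      have h4 : (0 : ℝ) ≤ W * Λ := by positivity
      have h5 : (0 : ℝ) ≤ W * Λ * q := by positivity
      have h6 : W * Λ * ((q : ℝ) - 2) = W * (q * Λ) - 2 * (W * Λ) := by ring
      linarith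
    have h2 : ∀ u ∈ range (4 * W), |π| ^ u * |(cu : ℝ) / cw - α| ^ (q * (4 * W - u) - b0) ≤
        |π| ^ (2 * W) * M := by
      intro u hu
      rw [Finset.mem_range] at hu
      refine (mul_le_mul_of_nonneg_left (pow_le_pow_left₀ (abs_nonneg _) hδe _)
        (by positivity)).trans ?_
      rw [hexpT, ← Real.exp_nat_mul, ← Real.exp_nat_mul, ← Real.exp_nat_mul, hM, ← Real.exp_add,
        ← Real.exp_add]
      refine Real.exp_le_exp.2 ?_
      have h3 := expo hΛ0 hqT1 hqT2 hu hb0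
      linarith
    calc |π| ^ (4 * W) + ∑ _i : Fin s, ∑ u ∈ range (4 * W),
          |π| ^ u * |(cu : ℝ) / cw - α| ^ (q * (4 * W - u) - b0)
        ≤ |π| ^ (2 * W) * M + ∑ _i : Fin s, ∑ _u ∈ range (4 * W), |π| ^ (2 * W) * M :=
          add_le_add h1 (Finset.sum_le_sum fun _ _ => Finset.sum_le_sum h2)
      _ = |π| ^ (2 * W) * ((1 + 4 * s * W) * M) := by
          rw [Finset.sum_const, Finset.sum_const, Finset.card_univ, Fintype.card_fin,
            Finset.card_range, nsmul_eq_mul, nsmul_eq_mul]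
          push_cast
          ring
  have hone : 1 ≤ K * ((1 + 4 * s * W) * M) := by
    have h1 : |π| ^ (2 * W) ≤ |π| ^ (2 * W) * (K * ((1 + 4 * s * W) * M)) := by
      refine hsz.trans ((mul_le_mul_of_nonneg_left hterm hK0.le).trans (le_of_eq ?_))
      ring
    have h2 : 0 < |π| ^ (2 * W) := by positivity
    have h3 : |π| ^ (2 * W) * 1 ≤ |π| ^ (2 * W) * (K * ((1 + 4 * s * W) * M)) := by
      rw [mul_one]
      exact h1
    exact le_of_mul_le_mul_left h3 h2
  have hlog : 0 ≤ Real.log K + Real.log (1 + 4 * s * W) + -(W * Λ * ((q : ℝ) - 2)) := by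
    have h1 := Real.log_nonneg hone
    rw [Real.log_mul hK0.ne' (by positivity), Real.log_mul (by positivity) (Real.exp_pos _).ne',
      Real.log_exp] at h1
    linarith
  -- logarithm of K
  have hlY : Real.log Y ≤ kp s W *
      (Real.log 2 + (r * (Real.log (4 * nn r s W q) + a) + d * L)) := by
    have h1 : Real.log Y = kp s W * Real.log (⌈Q⌉₊ : ℝ) := by
      rw [hY]
      push_cast
      rw [Real.log_pow]
    have h2 : Real.log (⌈Q⌉₊ : ℝ) ≤ Real.log 2 + Real.log Q := by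
      rw [← Real.log_mul (by norm_num) (by linarith)]
      exact Real.log_le_log (by exact_mod_cast hceil0) hceil2
    have h3 : Real.log Q = r * (Real.log (4 * nn r s W q) + a) + d * L := by
      rw [hQ, Real.log_mul (by positivity) (by positivity), Real.log_pow, Real.log_pow,
        Real.log_mul (by positivity) hA0.ne']
    rw [h1, ← h3]
    exact mul_le_mul_of_nonneg_left h2 (by positivity)
  have hl4 : Real.log (4 * B ^ 2) ≤ 2 * L := by
    have h1 : 4 * B ^ 2 ≤ (2 ^ r * B) ^ 2 := by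
      rw [mul_pow]
      refine mul_le_mul_of_nonneg_right ?_ (by positivity)
      have h2 : (2 : ℝ) ≤ 2 ^ r := by
        calc (2 : ℝ) = 2 ^ 1 := by norm_num
          _ ≤ 2 ^ r := pow_le_pow_right₀ (by norm_num) (by omega)
      nlinarith
    refine (Real.log_le_log (by positivity) h1).trans (le_of_eq ?_)
    rw [Real.log_pow, hL]
    norm_num
  have hlK : Real.log K = 3 * a + Real.log m + 2 * Real.log ((d : ℝ) + 1) +
      d * Real.log (4 * B ^ 2) + Real.log Y := by
    rw [hK, Real.log_mul (by positivity) (by positivity),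
      Real.log_mul (by positivity) (by positivity), Real.log_mul (by positivity) (by positivity),
      Real.log_mul (by positivity) (by positivity), Real.log_pow A 3,
      Real.log_pow ((d : ℝ) + 1) 2, Real.log_pow (4 * B ^ 2) d]
    push_cast
    ring
  have hdl : (d : ℝ) * Real.log (4 * B ^ 2) ≤ d * (2 * L) :=
    mul_le_mul_of_nonneg_left hl4 (by positivity)
  refine num_ineq hr hs hm hW hq1 ha2 hLa hL1 hTE (by rw [← hΛ]; exact hqT2) ?_
  rw [← hΛ]
  rw [hlK] at hlog
  linarith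

end Pool.Agent.H77.SF
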