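import Mathlib

/-! # [H77 SF Dat] THEOREM SF, chapter [C]: the numerical data of one bad point (standard world)

`p ∈ ℤ[X]` monic irreducible of degree `r`, `α` a real root, `cu / cw` a rational number near `α`,
`B ≥` Mahler measure of `p`, `|cu|`, `cw`; `V` = space of functions with basis `φ_k` (`k < m`),
`pi^(2W) φ_k = ∑ b_(k,i,u)(α) z_i pi^u + O(pi^(4W))` (`i < s`, `u < 4W`), `b_(k,i,u) ∈ ℤ[X]`
(common denominator cleared), values `Yv k / e` of the `φ_k` at the point `P` (`e`, `Yv k` integers),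
`pi = pi(P)` a small real number, `z i` real. All constants `≤ A`.
`sur` (levels): for `i = 1, 2, 3, 4` the jets of levels `u < i W` at the points over a set `J` of
roots with `i #J ≤ r + i - 1` are independent on `V`. -/

namespace Pool.Agent.H77.SF

open Finset Polynomial

/-- the numerical data of one bad point -/
structure Dat (r s m W : ℕ) (A B : ℝ) (p : ℤ[X]) (α : ℝ) (cu cw : ℤ) (π : ℝ) (z : Fin s → ℝ)
    (b : Fin m → Fin s → ℕ → ℤ[X]) (e : ℤ) (Yv : Fin m → ℤ) : Prop where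
  r2 : 2 ≤ r
  s1 : 1 ≤ s
  W1 : 1 ≤ W
  A2 : 2 ≤ A
  B1 : 1 ≤ B
  BA : B ≤ A
  mon : p.Monic
  irr : Irreducible p
  deg : p.natDegree = r
  root : aeval α p = 0
  mah : ((p.map (Int.castRingHom ℂ)).roots.map fun β => max 1 ‖β‖).prod ≤ B
  cuB : |(cu : ℝ)| ≤ B
  cw1 : 1 ≤ cw
  cwB : (cw : ℝ) ≤ B
  π0 : 0 < |π|
  zA : ∀ i, |z i| ≤ A
  bA : ∀ k i u, u < 4 * W → ∀ β : ℂ, aeval β p = 0 → ‖aeval β (b k i u)‖ ≤ A
  e1 : 1 ≤ e
  eA : (e : ℝ) ≤ A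
  Y0 : ∃ k, Yv k ≠ 0
  app : ∀ k, |π ^ (2 * W) * ((Yv k : ℝ) / e) -
    ∑ i, ∑ u ∈ range (4 * W), aeval α (b k i u) * z i * π ^ u| ≤ A * |π| ^ (4 * W)
  sur : ∀ i, 1 ≤ i → i ≤ 4 → ∀ J : Finset ℂ, (∀ β ∈ J, aeval β p = 0) → i * J.card ≤ r + i - 1 →
    ∀ t : ℂ → Fin s → ℕ → ℂ, ∃ v : Fin m → ℂ, ∀ β ∈ J, ∀ i0, ∀ u < i * W,
      ∑ k, v k * aeval β (b k i0 u) = t β i0 u

end Pool.Agent.H77.SF
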