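import Pool.Agent.H77.SF.Dat

/-! # [H77 SF Kf] THEOREM SF, chapter [C]: the number field `K = ℚ(α)` -/

namespace Pool.Agent.H77.SF

open Finset Polynomial NumberField

/-- `p` over `ℚ` -/
noncomputable abbrev pq (p : ℤ[X]) : ℚ[X] := p.map (Int.castRingHom ℚ)

/-- everything we need of the number field generated by a root of `p` -/
theorem field_data {p : ℤ[X]} (hmon : p.Monic) (hirr : Irreducible p) :
    ∃ (K : Type) (_ : Field K) (_ : NumberField K) (θ : 𝓞 K),
      Module.finrank ℚ K = p.natDegree ∧ aeval θ p = 0 ∧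
      (Function.Injective fun σ : K →+* ℂ => σ (algebraMap (𝓞 K) K θ)) ∧
      ∀ α : ℝ, aeval α p = 0 → ∃ φ : K →+* ℝ, φ (algebraMap (𝓞 K) K θ) = α := by
  have hI : Irreducible (pq p) :=
    (Polynomial.IsPrimitive.Int.irreducible_iff_irreducible_map_cast hmon.isPrimitive).1 hirr
  have : Fact (Irreducible (pq p)) := ⟨hI⟩
  set K := AdjoinRoot (pq p) with hK
  have hroot : aeval (AdjoinRoot.root (pq p)) p = 0 := by
    have h1 := AdjoinRoot.eval₂_root (pq p)
    rw [pq, eval₂_map] at h1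
    rw [aeval_def, ← h1]
    congr 1
  have hint : IsIntegral ℤ (AdjoinRoot.root (pq p)) := ⟨p, hmon, by rw [← aeval_def]; exact hroot⟩
  set θ : 𝓞 K := IsIntegralClosure.mk' (𝓞 K) (AdjoinRoot.root (pq p)) hint with hθ
  have hθK : algebraMap (𝓞 K) K θ = AdjoinRoot.root (pq p) :=
    IsIntegralClosure.algebraMap_mk' (𝓞 K) (AdjoinRoot.root (pq p)) hint
  refine ⟨K, inferInstance, inferInstance, θ, ?_, ?_, ?_, ?_⟩
  · rw [(AdjoinRoot.powerBasis hI.ne_zero).finrank, AdjoinRoot.powerBasis_dim,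
      hmon.natDegree_map]
  · have h2 : algebraMap (𝓞 K) K (aeval θ p) = 0 := by
      rw [← Polynomial.aeval_algebraMap_apply K θ p, hθK, hroot]
    exact (FaithfulSMul.algebraMap_injective (𝓞 K) K) (by rw [h2, map_zero])
  · intro σ σ' h
    simp only [hθK] at h
    have h1 : (RingHom.toRatAlgHom σ : K →ₐ[ℚ] ℂ) = RingHom.toRatAlgHom σ' :=
      AdjoinRoot.algHom_ext h
    exact RingHom.ext fun x => DFunLike.congr_fun h1 x
  · intro α hα
    have h1 : (pq p).eval₂ (algebraMap ℚ ℝ) α = 0 := by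
      rw [pq, eval₂_map, ← hα, aeval_def]
      congr 1
    exact ⟨AdjoinRoot.lift (algebraMap ℚ ℝ) α h1, by rw [hθK, AdjoinRoot.lift_root]⟩

theorem hom_aeval {K L : Type*} [Field K] [NumberField K] [Field L] (σ : K →+* L) (θ : 𝓞 K)
    (g : ℤ[X]) : σ (algebraMap (𝓞 K) K (aeval θ g)) = aeval (σ (algebraMap (𝓞 K) K θ)) g := by
  rw [← Polynomial.aeval_algebraMap_apply K θ g]
  exact (Polynomial.aeval_algHom_apply σ.toIntAlgHom (algebraMap (𝓞 K) K θ) g).symm

/-- the product over the embeddings is at most the Mahler measure -/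
theorem prod_le_mah {K : Type*} [Field K] [NumberField K] {p : ℤ[X]} (hp : p ≠ 0) (x : K)
    (hinj : Function.Injective fun σ : K →+* ℂ => σ x)
    (hx : ∀ σ : K →+* ℂ, aeval (σ x) p = 0) :
    ∏ σ : K →+* ℂ, max 1 ‖σ x‖ ≤
      ((p.map (Int.castRingHom ℂ)).roots.map fun β => max 1 ‖β‖).prod := by
  classical
  have h1 : (∏ σ : K →+* ℂ, max 1 ‖σ x‖) =
      ((univ.image fun σ : K →+* ℂ => σ x).val.map fun β : ℂ => max 1 ‖β‖).prod := by
    rw [← Finset.prod_eq_multiset_prod, Finset.prod_image fun σ _ σ' _ h => hinj h]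
  have hpc : p.map (Int.castRingHom ℂ) ≠ 0 :=
    (Polynomial.map_ne_zero_iff (RingHom.injective_int _)).2 hp
  have h2 : (univ.image fun σ : K →+* ℂ => σ x).val ≤ (p.map (Int.castRingHom ℂ)).roots := by
    rw [Multiset.le_iff_subset (Finset.nodup _)]
    intro β hβ
    obtain ⟨σ, _, rfl⟩ := Finset.mem_image.1 (Finset.mem_def.2 hβ)
    rw [mem_roots hpc, IsRoot.def, eval_map, ← hx σ, aeval_def]
    congr 1
  obtain ⟨R, hR⟩ := Multiset.le_iff_exists_add.1 h2
  have h3 : ∀ R : Multiset ℂ, 1 ≤ (R.map fun β : ℂ => max 1 ‖β‖).prod := by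
    intro R
    induction R using Multiset.induction_on with
    | empty => simp
    | cons a R ih =>
      rw [Multiset.map_cons, Multiset.prod_cons]
      exact one_le_mul_of_one_le_of_one_le (le_max_left _ _) ih
  rw [h1, hR, Multiset.map_add, Multiset.prod_add]
  exact le_mul_of_one_le_right (le_trans zero_le_one (h3 _)) (h3 _)

end Pool.Agent.H77.SF
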