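import Mathlib

/-! # [H77 SF Pf] Partial fractions (THEOREM SF, think 1396, STEP 1)

`β : ι → F` distinct points, `n : ι → ℕ` multiplicities, `D = ∏ (X - β x)^(n x)`, `N = ∑ n x`.
`tm β n x k = D / (X - β x)^(k+1)` (`k < n x`).
(a) `coeff_eq`: the coefficients of `∑ A x k * tm x k` at `N - 1 - i` (`i ≤ d`) vanish if
`∑ A x k * (l.choose k) * β x^(l-k) = 0` for all `l ≤ d`.
(b) `pf_indep`: if `∑ A x k * tm x k = 0` then all `A x k` (`k < n x`) vanish.
(c) `pf_dvd`: if `A x k = 0` for `t ≤ k` then `(X - β x)^(n x - t)` divides the sum. -/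

namespace Pool.Agent.H77.SF

open Finset Polynomial

variable {F ι : Type*} [Field F] [Fintype ι] [DecidableEq ι]

/-- `D / (X - β x)^(k+1)` -/
noncomputable def tm (β : ι → F) (n : ι → ℕ) (x : ι) (k : ℕ) : F[X] :=
  (X - C (β x)) ^ (n x - k - 1) * ∏ y ∈ univ.erase x, (X - C (β y)) ^ (n y)

/-- the expansion of `1/(Y - b)^(k+1)` at infinity -/
noncomputable def gs (b : F) (k : ℕ) : PowerSeries F :=
  PowerSeries.mk fun l => (l.choose k : F) * b ^ (l - k)

theorem gs_zero (b : F) : (1 - PowerSeries.C b * PowerSeries.X) * gs b 0 = 1 := by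
  ext l
  rw [sub_mul, one_mul, map_sub, mul_assoc, PowerSeries.coeff_C_mul]
  cases l with
  | zero => simp [gs]
  | succ l =>
    rw [PowerSeries.coeff_succ_X_mul]
    simp only [gs, PowerSeries.coeff_mk, Nat.choose_zero_right, Nat.cast_one, one_mul,
      Nat.sub_zero, PowerSeries.coeff_one, Nat.succ_ne_zero, if_false]
    ring

theorem gs_succ (b : F) (k : ℕ) :
    (1 - PowerSeries.C b * PowerSeries.X) * gs b (k + 1) = PowerSeries.X * gs b k := by
  ext l
  rw [sub_mul, one_mul, map_sub, mul_assoc, PowerSeries.coeff_C_mul]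
  cases l with
  | zero => simp [gs]
  | succ l =>
    rw [PowerSeries.coeff_succ_X_mul, PowerSeries.coeff_succ_X_mul]
    simp only [gs, PowerSeries.coeff_mk]
    rw [Nat.choose_succ_succ, Nat.cast_add, Nat.succ_sub_succ]
    rcases Nat.lt_or_ge k l with h | h
    · have h1 : l - k = (l - (k + 1)) + 1 := by omega
      rw [h1, pow_succ]
      ring
    · rw [Nat.choose_eq_zero_of_lt (show l < k + 1 by omega)]
      simp

theorem gs_pow (b : F) (k : ℕ) :
    (1 - PowerSeries.C b * PowerSeries.X) ^ (k + 1) * gs b k = PowerSeries.X ^ k := by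
  induction k with
  | zero => rw [zero_add, pow_one, gs_zero, pow_zero]
  | succ k ih =>
    rw [pow_succ (1 - PowerSeries.C b * PowerSeries.X) (k + 1), mul_assoc, gs_succ,
      pow_succ' PowerSeries.X k, ← ih]
    ring

theorem reflect_lin (b : F) : reflect 1 (X - C b) = 1 - C b * X := by
  ext i
  rw [coeff_reflect]
  rcases Nat.lt_or_ge 1 i with h | h
  · rw [revAt_eq_self_of_lt h]
    simp only [coeff_sub, coeff_X, coeff_C, coeff_one, coeff_C_mul]
    have h1 : i ≠ 0 := by omega
    have h2 : (1 : ℕ) ≠ i := by omega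
    simp [h1, h2]
  · rw [revAt_le h]
    interval_cases i <;> simp [coeff_one, coeff_X, coeff_C]

theorem natDegree_lin_pow (b : F) (n : ℕ) : ((X - C b) ^ n).natDegree ≤ n := by
  refine (natDegree_pow_le).trans ?_
  rw [natDegree_X_sub_C, mul_one]

theorem reflect_pow (b : F) (n : ℕ) : reflect n ((X - C b) ^ n) = (1 - C b * X) ^ n := by
  induction n with
  | zero => simp
  | succ n ih =>
    rw [pow_succ, reflect_mul _ _ (natDegree_lin_pow b n) (natDegree_X_sub_C b).le, ih,
      reflect_lin, pow_succ]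

omit [Fintype ι] in
theorem reflect_prod (β : ι → F) (n : ι → ℕ) (s : Finset ι) :
    (∏ y ∈ s, (X - C (β y)) ^ (n y)).natDegree ≤ ∑ y ∈ s, n y ∧
    reflect (∑ y ∈ s, n y) (∏ y ∈ s, (X - C (β y)) ^ (n y)) =
      ∏ y ∈ s, (1 - C (β y) * X) ^ (n y) := by
  induction s using Finset.induction_on with
  | empty => simp
  | insert a s ha ih =>
    rw [Finset.sum_insert ha, Finset.prod_insert ha, Finset.prod_insert ha]
    refine ⟨natDegree_mul_le.trans (Nat.add_le_add (natDegree_lin_pow _ _) ih.1), ?_⟩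
    rw [reflect_mul _ _ (natDegree_lin_pow _ _) ih.1, reflect_pow, ih.2]

theorem sum_erase (n : ι → ℕ) (x : ι) : n x + ∑ y ∈ univ.erase x, n y = ∑ y, n y :=
  Finset.add_sum_erase univ n (mem_univ x)

theorem tm_natDegree (β : ι → F) (n : ι → ℕ) (x : ι) (k : ℕ) :
    (tm β n x k).natDegree ≤ (n x - k - 1) + ∑ y ∈ univ.erase x, n y :=
  natDegree_mul_le.trans (Nat.add_le_add (natDegree_lin_pow _ _) (reflect_prod β n _).1)

theorem tm_reflect (β : ι → F) (n : ι → ℕ) (x : ι) (k : ℕ) (hk : k < n x) :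
    reflect (∑ y, n y - 1) (tm β n x k) =
      X ^ k * ((1 - C (β x) * X) ^ (n x - k - 1) *
        ∏ y ∈ univ.erase x, (1 - C (β y) * X) ^ (n y)) := by
  have h1 : ∑ y, n y - 1 = k + ((n x - k - 1) + ∑ y ∈ univ.erase x, n y) := by
    have := sum_erase n x
    omega
  have h2 := reflect_mul (1 : F[X]) (tm β n x k) (F := k) (by simp) (tm_natDegree β n x k)
  rw [one_mul] at h2
  rw [h1, h2, reflect_one, tm,
    reflect_mul _ _ (natDegree_lin_pow _ _) (reflect_prod β n _).1, reflect_pow,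
    (reflect_prod β n _).2]

/-- in power series: `reflect (N-1) (tm x k) = ∏ (1 - β y X)^(n y) * gs (β x) k` -/
theorem tm_series (β : ι → F) (n : ι → ℕ) (x : ι) (k : ℕ) (hk : k < n x) :
    ((reflect (∑ y, n y - 1) (tm β n x k) : F[X]) : PowerSeries F) =
      (((∏ y, (1 - C (β y) * X) ^ (n y) : F[X])) : PowerSeries F) * gs (β x) k := by
  rw [tm_reflect β n x k hk, ← Finset.mul_prod_erase univ _ (mem_univ x)]
  have h1 : n x = (n x - k - 1) + (k + 1) := by omega
  have h2 : ((1 - C (β x) * X : F[X]) : PowerSeries F) =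
      1 - PowerSeries.C (β x) * PowerSeries.X := by
    simp
  have h3 : ((1 - C (β x) * X : F[X]) ^ (n x) : F[X]) =
      (1 - C (β x) * X) ^ (n x - k - 1) * (1 - C (β x) * X) ^ (k + 1) := by
    rw [← pow_add, ← h1]
  rw [h3]
  simp only [Polynomial.coe_mul, Polynomial.coe_pow, Polynomial.coe_X]
  rw [h2, ← gs_pow (β x) k]
  ring

/-- (a) the degree bound -/
theorem coeff_eq (β : ι → F) (n : ι → ℕ) (A : ι → ℕ → F) (d : ℕ)
    (h : ∀ l ≤ d, ∑ x, ∑ k ∈ range (n x), A x k * ((l.choose k : F) * (β x) ^ (l - k)) = 0)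
    (i : ℕ) (hi : ∑ y, n y ≤ i + d + 1) :
    (∑ x, ∑ k ∈ range (n x), C (A x k) * tm β n x k).coeff i = 0 := by
  have hz : ∀ x, ∀ k ∈ range (n x), ∑ y, n y ≤ i → (tm β n x k).coeff i = 0 := by
    intro x k hk hle
    refine coeff_eq_zero_of_natDegree_lt (lt_of_le_of_lt (tm_natDegree β n x k) ?_)
    have h1 := sum_erase n x
    have h2 := mem_range.1 hk
    omega
  simp only [finsetSum_coeff, coeff_C_mul]
  rcases Nat.lt_or_ge i (∑ y, n y) with hlt | hge
  · set e := ∑ y, n y - 1 - i with he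
    have hi2 : i = revAt (∑ y, n y - 1) e := by
      rw [revAt_le (by omega)]
      omega
    have h1 : ∀ x, ∀ k ∈ range (n x), A x k * (tm β n x k).coeff i =
        PowerSeries.coeff e ((((∏ y, (1 - C (β y) * X) ^ (n y) : F[X])) : PowerSeries F) *
          (PowerSeries.C (A x k) * gs (β x) k)) := by
      intro x k hk
      rw [mul_left_comm, PowerSeries.coeff_C_mul, ← tm_series β n x k (mem_range.1 hk),
        Polynomial.coeff_coe, coeff_reflect, ← hi2]
    rw [Finset.sum_congr rfl fun x _ => Finset.sum_congr rfl fun k hk => h1 x k hk]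
    have h2 : ∑ x, ∑ k ∈ range (n x),
        PowerSeries.coeff e ((((∏ y, (1 - C (β y) * X) ^ (n y) : F[X])) : PowerSeries F) *
          (PowerSeries.C (A x k) * gs (β x) k)) =
        PowerSeries.coeff e ((((∏ y, (1 - C (β y) * X) ^ (n y) : F[X])) : PowerSeries F) *
          ∑ x, ∑ k ∈ range (n x), PowerSeries.C (A x k) * gs (β x) k) := by
      rw [Finset.mul_sum, map_sum]
      refine Finset.sum_congr rfl fun x _ => ?_
      rw [Finset.mul_sum, map_sum]
    rw [h2]
    have h3 : PowerSeries.X ^ (d + 1) ∣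
        (∑ x, ∑ k ∈ range (n x), PowerSeries.C (A x k) * gs (β x) k : PowerSeries F) := by
      rw [PowerSeries.X_pow_dvd_iff]
      intro l hl
      rw [map_sum]
      rw [← h l (by omega)]
      refine Finset.sum_congr rfl fun x _ => ?_
      rw [map_sum]
      refine Finset.sum_congr rfl fun k _ => ?_
      rw [PowerSeries.coeff_C_mul, gs, PowerSeries.coeff_mk]
    exact (PowerSeries.X_pow_dvd_iff.1 (h3.mul_left _)) e (by omega)
  · refine Finset.sum_eq_zero fun x _ => Finset.sum_eq_zero fun k hk => ?_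
    rw [hz x k hk hge, mul_zero]

/-- (c) -/
theorem pf_dvd (β : ι → F) (n : ι → ℕ) (A : ι → ℕ → F) (x : ι) (t : ℕ)
    (h : ∀ k, t ≤ k → k < n x → A x k = 0) :
    (X - C (β x)) ^ (n x - t) ∣ ∑ y, ∑ k ∈ range (n y), C (A y k) * tm β n y k := by
  refine Finset.dvd_sum fun y _ => Finset.dvd_sum fun k hk => ?_
  by_cases hy : y = x
  · subst hy
    rcases Nat.lt_or_ge k t with hkt | hkt
    · refine Dvd.dvd.mul_left (Dvd.dvd.mul_right (pow_dvd_pow _ ?_) _) _
      have := mem_range.1 hk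
      omega
    · rw [h k hkt (mem_range.1 hk), C_0, zero_mul]
      exact dvd_zero _
  · refine Dvd.dvd.mul_left (Dvd.dvd.mul_left ?_ _) _
    refine dvd_trans (pow_dvd_pow _ (Nat.sub_le _ _)) ?_
    exact Finset.dvd_prod_of_mem (fun y => (X - C (β y)) ^ (n y))
      (Finset.mem_erase.2 ⟨fun h => hy h.symm, mem_univ x⟩)

/-- (b) -/
theorem pf_indep {β : ι → F} (hβ : Function.Injective β) (n : ι → ℕ) (A : ι → ℕ → F)
    (h : ∑ y, ∑ k ∈ range (n y), C (A y k) * tm β n y k = 0) (x : ι) (k : ℕ) (hk : k < n x) :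
    A x k = 0 := by
  set q : F[X] := ∑ k ∈ range (n x), C (A x k) * X ^ (n x - k - 1) with hq
  have h1 : (q.comp (X - C (β x))) * ∏ y ∈ univ.erase x, (X - C (β y)) ^ (n y) =
      ∑ k ∈ range (n x), C (A x k) * tm β n x k := by
    rw [hq, Polynomial.sum_comp, Finset.sum_mul]
    refine Finset.sum_congr rfl fun k _ => ?_
    simp only [mul_comp, C_comp, pow_comp, X_comp, tm]
    ring
  have h2 : (X - C (β x)) ^ (n x) ∣
      (q.comp (X - C (β x))) * ∏ y ∈ univ.erase x, (X - C (β y)) ^ (n y) := by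
    rw [h1]
    have h3 : ∑ k ∈ range (n x), C (A x k) * tm β n x k =
        - ∑ y ∈ univ.erase x, ∑ k ∈ range (n y), C (A y k) * tm β n y k := by
      rw [← Finset.add_sum_erase univ _ (mem_univ x)] at h
      exact eq_neg_of_add_eq_zero_left h
    rw [h3]
    refine (dvd_neg).2 (Finset.dvd_sum fun y hy => Finset.dvd_sum fun k _ => ?_)
    refine Dvd.dvd.mul_left (Dvd.dvd.mul_left ?_ _) _
    have hyx : x ≠ y := fun h => (Finset.mem_erase.1 hy).1 h.symm
    exact Finset.dvd_prod_of_mem (fun y => (X - C (β y)) ^ (n y))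
      (Finset.mem_erase.2 ⟨hyx, mem_univ x⟩)
  have hcop : IsCoprime ((X - C (β x)) ^ (n x))
      (∏ y ∈ univ.erase x, (X - C (β y)) ^ (n y)) := by
    refine IsCoprime.prod_right fun y hy => ?_
    have hyx : β x - β y ≠ 0 := sub_ne_zero.2 fun h => (Finset.mem_erase.1 hy).1 (hβ h.symm)
    exact (isCoprime_X_sub_C_of_isUnit_sub (isUnit_iff_ne_zero.2 hyx)).pow
  have h4 : (X - C (β x)) ^ (n x) ∣ q.comp (X - C (β x)) := hcop.dvd_of_dvd_mul_right h2
  have hqdeg : q.degree < (n x : WithBot ℕ) := by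
    rw [hq]
    refine (Polynomial.degree_sum_le _ _).trans_lt ?_
    rw [Finset.sup_lt_iff (by exact WithBot.bot_lt_coe _)]
    intro k hk
    refine (Polynomial.degree_C_mul_X_pow_le _ _).trans_lt ?_
    have := mem_range.1 hk
    exact_mod_cast (show n x - k - 1 < n x by omega)
  have h5 : q.comp (X - C (β x)) = 0 := by
    by_contra hne
    have h6 := Polynomial.degree_le_of_dvd h4 hne
    have hq0 : q ≠ 0 := fun h0 => hne (by rw [h0, zero_comp])
    have h7 : (q.comp (X - C (β x))).natDegree = q.natDegree := by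
      rw [natDegree_comp, natDegree_X_sub_C, mul_one]
    rw [degree_pow, degree_X_sub_C, nsmul_eq_mul, mul_one, degree_eq_natDegree hne, h7,
      ← degree_eq_natDegree hq0] at h6
    exact absurd (lt_of_le_of_lt h6 hqdeg) (lt_irrefl _)
  have h6 : q = 0 := by
    have h8 : (q.comp (X - C (β x))).comp (X + C (β x)) = q := by
      rw [comp_assoc]
      simp
    rw [← h8, h5, zero_comp]
  have h9 : q.coeff (n x - k - 1) = A x k := by
    rw [hq, finsetSum_coeff]
    rw [Finset.sum_eq_single k]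
    · rw [coeff_C_mul, coeff_X_pow, if_pos rfl, mul_one]
    · intro j hj hjk
      rw [coeff_C_mul, coeff_X_pow, if_neg, mul_zero]
      have := mem_range.1 hj
      omega
    · intro hn
      exact absurd (mem_range.2 hk) hn
  rw [← h9, h6, coeff_zero]

end Pool.Agent.H77.SF
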